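import Pool.Agent.Lib.CR5.Iface

/-!
# CR5, block F: calculus of `sq` and `NN`
-/

open MeasureTheory Set Filter Topology
open scoped ENNReal ComplexConjugate

noncomputable section

namespace Pool.Agent.CR5

theorem sq_succ (n : ℕ) (f : E5 → ℂ) (x : E5) : sq (n + 1) f x = ∑ k : Fin 5, sq n (pd k f) x := rfl

theorem sq_zero' (f : E5 → ℂ) (x : E5) : sq 0 f x = ‖f x‖ ^ 2 := rfl

theorem sq_nonneg' : ∀ (n : ℕ) (f : E5 → ℂ) (x : E5), 0 ≤ sq n f x
  | 0, f, x => by rw [sq_zero']; positivity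
  | n + 1, f, x => by
    rw [sq_succ]
    exact Finset.sum_nonneg fun k _ => sq_nonneg' n _ x

theorem sq_continuous : ∀ (n : ℕ) {f : E5 → ℂ}, Sm f → Continuous (sq n f)
  | 0, f, hf => by
    have : sq 0 f = fun x => ‖f x‖ ^ 2 := rfl
    rw [this]; exact (hf.cont.norm).pow 2
  | n + 1, f, hf => by
    have : sq (n + 1) f = fun x => ∑ k : Fin 5, sq n (pd k f) x := rfl
    rw [this]
    exact continuous_finset_sum _ fun k _ => sq_continuous n (hf.pd k)

theorem pd_congr {f g : E5 → ℂ} {x : E5} (h : f =ᶠ[𝓝 x] g) (k : Fin 5) :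
    pd k f =ᶠ[𝓝 x] pd k g := by
  have := h.fderiv (𝕜 := ℝ)
  exact this.mono fun y hy => by simp only [pd, hy]

/-- `sq` is local. -/
theorem sq_congr : ∀ (n : ℕ) {f g : E5 → ℂ} {x : E5}, f =ᶠ[𝓝 x] g → sq n f x = sq n g x
  | 0, f, g, x, h => by rw [sq_zero', sq_zero', h.eq_of_nhds]
  | n + 1, f, g, x, h => by
    rw [sq_succ, sq_succ]
    exact Finset.sum_congr rfl fun k _ => sq_congr n (pd_congr h k)

theorem sq_eq_of_open {n : ℕ} {f g : E5 → ℂ} {Ω : Set E5} (hΩ : IsOpen Ω)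
    (h : ∀ x ∈ Ω, f x = g x) {x : E5} (hx : x ∈ Ω) : sq n f x = sq n g x :=
  sq_congr n (by filter_upwards [hΩ.mem_nhds hx] with y hy using h y hy)

theorem sq_pd_le (n : ℕ) (f : E5 → ℂ) (k : Fin 5) (x : E5) : sq n (pd k f) x ≤ sq (n + 1) f x := by
  rw [sq_succ]
  exact Finset.single_le_sum (f := fun k => sq n (pd k f) x) (fun i _ => sq_nonneg' n _ x)
    (Finset.mem_univ k)

theorem pd_eta_add {f g : E5 → ℂ} (hf : Sm f) (hg : Sm g) (i : Fin 5) :
    pd i (fun y => f y + g y) = fun y => pd i f y + pd i g y := by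
  funext y; exact pd_add hf hg i y

theorem pd_eta_mul {f g : E5 → ℂ} (hf : Sm f) (hg : Sm g) (i : Fin 5) :
    pd i (fun y => f y * g y) = fun y => f y * pd i g y + pd i f y * g y := by
  funext y; exact pd_mul hf hg i y

/-- The bilinear form of `sq`. -/
def bl : ℕ → (E5 → ℂ) → (E5 → ℂ) → E5 → ℝ
  | 0, f, g => fun x => (f x * conj (g x)).re
  | n + 1, f, g => fun x => ∑ k : Fin 5, bl n (pd k f) (pd k g) x

theorem sq_lin : ∀ (n : ℕ) {f g : E5 → ℂ}, Sm f → Sm g → ∀ (t : ℝ) (x : E5),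
    sq n (fun y => f y + (t : ℂ) * g y) x = sq n f x + 2 * t * bl n f g x + t ^ 2 * sq n g x
  | 0, f, g, hf, hg, t, x => by
    show ‖f x + (t : ℂ) * g x‖ ^ 2 = ‖f x‖ ^ 2 + 2 * t * (f x * conj (g x)).re + t ^ 2 * ‖g x‖ ^ 2
    rw [← Complex.normSq_eq_norm_sq, ← Complex.normSq_eq_norm_sq, ← Complex.normSq_eq_norm_sq,
      Complex.normSq_apply, Complex.normSq_apply, Complex.normSq_apply]
    simp
    ring
  | n + 1, f, g, hf, hg, t, x => by
    rw [sq_succ, sq_succ, sq_succ]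
    show _ = _ + 2 * t * (∑ k : Fin 5, bl n (pd k f) (pd k g) x) + _
    rw [Finset.mul_sum, Finset.mul_sum, ← Finset.sum_add_distrib, ← Finset.sum_add_distrib]
    refine Finset.sum_congr rfl fun k _ => ?_
    rw [← sq_lin n (hf.pd k) (hg.pd k) t x]
    congr 1
    funext y
    rw [pd_add hf ((Sm.const _).mul hg), pd_const_mul hg]

theorem bl_continuous : ∀ (n : ℕ) {f g : E5 → ℂ}, Sm f → Sm g → Continuous (bl n f g)
  | 0, f, g, hf, hg => by
    show Continuous fun x => (f x * conj (g x)).re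
    exact Complex.continuous_re.comp (hf.cont.mul hg.conj.cont)
  | n + 1, f, g, hf, hg => by
    show Continuous fun x => ∑ k : Fin 5, bl n (pd k f) (pd k g) x
    exact continuous_finset_sum _ fun k _ => bl_continuous n (hf.pd k) (hg.pd k)

theorem sq_add_eq (n : ℕ) {f g : E5 → ℂ} (hf : Sm f) (hg : Sm g) (x : E5) :
    sq n (fun y => f y + g y) x = sq n f x + 2 * bl n f g x + sq n g x := by
  have := sq_lin n hf hg 1 x
  simpa using this

theorem two_mul_bl_le (n : ℕ) {f g : E5 → ℂ} (hf : Sm f) (hg : Sm g) (x : E5) :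
    2 * bl n f g x ≤ sq n f x + sq n g x := by
  have h := sq_lin n hf hg (-1) x
  have h0 := sq_nonneg' n (fun y => f y + ((-1 : ℝ) : ℂ) * g y) x
  nlinarith

theorem sq_add_le (n : ℕ) {f g : E5 → ℂ} (hf : Sm f) (hg : Sm g) (x : E5) :
    sq n (fun y => f y + g y) x ≤ 2 * sq n f x + 2 * sq n g x := by
  rw [sq_add_eq n hf hg]
  linarith [two_mul_bl_le n hf hg x]

/-- A nonnegative quadratic polynomial. -/
theorem quad_le {A B D : ℝ} (hA : 0 ≤ A) (hD : 0 ≤ D)
    (h : ∀ t : ℝ, 0 ≤ A + 2 * t * B + t ^ 2 * D) : B ≤ Real.sqrt A * Real.sqrt D := by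
  have hd : discrim D (2 * B) A ≤ 0 := discrim_le_zero fun t => by
    have := h t; nlinarith
  have h2 : B ^ 2 ≤ A * D := by unfold discrim at hd; nlinarith
  rw [← Real.sqrt_mul hA]
  exact Real.le_sqrt_of_sq_le h2

theorem bl_le (n : ℕ) {f g : E5 → ℂ} (hf : Sm f) (hg : Sm g) (x : E5) :
    bl n f g x ≤ Real.sqrt (sq n f x) * Real.sqrt (sq n g x) :=
  quad_le (sq_nonneg' n f x) (sq_nonneg' n g x) fun t => by
    rw [← sq_lin n hf hg t x]; exact sq_nonneg' n _ x

/-- Triangle inequality. -/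
theorem sqrt_sq_add_le (n : ℕ) {f g : E5 → ℂ} (hf : Sm f) (hg : Sm g) (x : E5) :
    Real.sqrt (sq n (fun y => f y + g y) x) ≤ Real.sqrt (sq n f x) + Real.sqrt (sq n g x) := by
  rw [sq_add_eq n hf hg]
  apply Real.sqrt_le_iff.2
  refine ⟨by positivity, ?_⟩
  have h1 := Real.sq_sqrt (sq_nonneg' n f x)
  have h2 := Real.sq_sqrt (sq_nonneg' n g x)
  nlinarith [bl_le n hf hg x]

theorem sq_const_mul : ∀ (n : ℕ) {f : E5 → ℂ}, Sm f → ∀ (c : ℂ) (x : E5),
    sq n (fun y => c * f y) x = ‖c‖ ^ 2 * sq n f x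
  | 0, f, hf, c, x => by
    rw [sq_zero', sq_zero', norm_mul, mul_pow]
  | n + 1, f, hf, c, x => by
    rw [sq_succ, sq_succ, Finset.mul_sum]
    refine Finset.sum_congr rfl fun k _ => ?_
    rw [← sq_const_mul n (hf.pd k) c x]
    congr 1; funext y; exact pd_const_mul hf c k y

theorem sq_neg (n : ℕ) {f : E5 → ℂ} (hf : Sm f) (x : E5) :
    sq n (fun y => -f y) x = sq n f x := by
  have := sq_const_mul n hf (-1) x
  simpa using this

theorem sq_sub_le (n : ℕ) {f g : E5 → ℂ} (hf : Sm f) (hg : Sm g) (x : E5) :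
    sq n (fun y => f y - g y) x ≤ 2 * sq n f x + 2 * sq n g x := by
  have := sq_add_le n hf hg.neg x
  rw [sq_neg n hg] at this
  simpa only [sub_eq_add_neg] using this

theorem sq_conj : ∀ (n : ℕ) {f : E5 → ℂ}, Sm f → ∀ (x : E5),
    sq n (fun y => conj (f y)) x = sq n f x
  | 0, f, hf, x => by rw [sq_zero', sq_zero', RCLike.norm_conj]
  | n + 1, f, hf, x => by
    rw [sq_succ, sq_succ]
    refine Finset.sum_congr rfl fun k _ => ?_
    rw [← sq_conj n (hf.pd k) x]
    congr 1; funext y; exact pd_conj hf k y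

theorem sq_const : ∀ (n : ℕ) (c : ℂ) (x : E5), sq n (fun _ => c) x = if n = 0 then ‖c‖ ^ 2 else 0
  | 0, c, x => by simp [sq_zero']
  | n + 1, c, x => by
    rw [sq_succ]
    have h : ∀ k : Fin 5, pd k (fun _ => c) = fun _ => (0 : ℂ) := fun k => by
      funext y; exact pd_const c k y
    simp only [h, sq_const n 0 x]
    simp

theorem sq_zero_fun (n : ℕ) (x : E5) : sq n (fun _ => (0 : ℂ)) x = 0 := by
  rw [sq_const]; simp

/-- Leibniz rule, with squares. -/
theorem sq_mul_le : ∀ (n : ℕ) {f g : E5 → ℂ}, Sm f → Sm g → ∀ (x : E5),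
    sq n (fun y => f y * g y) x
      ≤ 4 ^ n * ∑ i ∈ Finset.range (n + 1), sq i f x * sq (n - i) g x
  | 0, f, g, hf, hg, x => by
    simp [sq_zero', norm_mul, mul_pow]
  | n + 1, f, g, hf, hg, x => by
    rw [sq_succ]
    have h1 : ∀ k : Fin 5, sq n (pd k fun y => f y * g y) x
        ≤ 2 * (4 ^ n * ∑ i ∈ Finset.range (n + 1), sq i f x * sq (n - i) (pd k g) x)
          + 2 * (4 ^ n * ∑ i ∈ Finset.range (n + 1), sq i (pd k f) x * sq (n - i) g x) := by
      intro k
      rw [pd_eta_mul hf hg]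
      refine (sq_add_le n (hf.mul (hg.pd k)) ((hf.pd k).mul hg) x).trans ?_
      have a1 := sq_mul_le n hf (hg.pd k) x
      have a2 := sq_mul_le n (hf.pd k) hg x
      linarith
    refine (Finset.sum_le_sum fun k _ => h1 k).trans ?_
    have e1 : ∑ k : Fin 5, ∑ i ∈ Finset.range (n + 1), sq i f x * sq (n - i) (pd k g) x
        = ∑ i ∈ Finset.range (n + 1), sq i f x * sq (n + 1 - i) g x := by
      rw [Finset.sum_comm]
      refine Finset.sum_congr rfl fun i hi => ?_
      rw [← Finset.mul_sum, show n + 1 - i = (n - i) + 1 by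
        have := Finset.mem_range.1 hi; omega]
      rfl
    have e2 : ∑ k : Fin 5, ∑ i ∈ Finset.range (n + 1), sq i (pd k f) x * sq (n - i) g x
        = ∑ i ∈ Finset.range (n + 1), sq (i + 1) f x * sq (n - i) g x := by
      rw [Finset.sum_comm]
      refine Finset.sum_congr rfl fun i hi => ?_
      rw [← Finset.sum_mul]; rfl
    rw [Finset.sum_add_distrib, ← Finset.mul_sum, ← Finset.mul_sum, ← Finset.mul_sum,
      ← Finset.mul_sum, e1, e2]
    have b1 : ∑ i ∈ Finset.range (n + 1), sq i f x * sq (n + 1 - i) g x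
        ≤ ∑ i ∈ Finset.range (n + 1 + 1), sq i f x * sq (n + 1 - i) g x := by
      rw [Finset.sum_range_succ _ (n + 1)]
      have := mul_nonneg (sq_nonneg' (n + 1) f x) (sq_nonneg' (n + 1 - (n + 1)) g x)
      linarith
    have b2 : ∑ i ∈ Finset.range (n + 1), sq (i + 1) f x * sq (n - i) g x
        ≤ ∑ i ∈ Finset.range (n + 1 + 1), sq i f x * sq (n + 1 - i) g x := by
      rw [Finset.sum_range_succ' _ (n + 1)]
      have := mul_nonneg (sq_nonneg' 0 f x) (sq_nonneg' (n + 1 - 0) g x)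
      have h : ∑ i ∈ Finset.range (n + 1), sq (i + 1) f x * sq (n - i) g x
          = ∑ i ∈ Finset.range (n + 1), sq (i + 1) f x * sq (n + 1 - (i + 1)) g x :=
        Finset.sum_congr rfl fun i _ => by congr 2; omega
      rw [h]; linarith
    have hp : (0 : ℝ) ≤ 4 ^ n := by positivity
    rw [pow_succ]
    nlinarith [mul_le_mul_of_nonneg_left b1 hp, mul_le_mul_of_nonneg_left b2 hp]

end Pool.Agent.CR5
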