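import Pool.Agent.Lib.CR5.SpecF

/-!
# CR5, block F: sums, derivatives and shifts of `AO` bounds
-/

open MeasureTheory Set Filter Topology
open scoped ENNReal ComplexConjugate

noncomputable section

namespace Pool.Agent.CR5

namespace FAoa

theorem half {w a A : ℝ} (hw : 0 ≤ w) (ha : 0 ≤ a) (hA : 0 ≤ A) (h : w ^ 2 * a ≤ A ^ 2) :
    w * Real.sqrt a ≤ A := by
  have e : (w * Real.sqrt a) ^ 2 = w ^ 2 * a := by rw [mul_pow, Real.sq_sqrt ha]
  have h' : (w * Real.sqrt a) ^ 2 ≤ A ^ 2 := by rw [e]; exact h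
  exact (pow_le_pow_iff_left₀ (by positivity) hA two_ne_zero).1 h'

theorem core {w a b c A B : ℝ} (hw : 0 ≤ w) (ha : 0 ≤ a) (hb : 0 ≤ b) (hc : 0 ≤ c)
    (hA : 0 ≤ A) (hB : 0 ≤ B) (h : Real.sqrt c ≤ Real.sqrt a + Real.sqrt b)
    (h1 : w ^ 2 * a ≤ A ^ 2) (h2 : w ^ 2 * b ≤ B ^ 2) : w ^ 2 * c ≤ (A + B) ^ 2 := by
  have e : w ^ 2 * c = (w * Real.sqrt c) ^ 2 := by rw [mul_pow, Real.sq_sqrt hc]
  rw [e]
  refine pow_le_pow_left₀ (by positivity) ?_ 2
  have a1 := half hw ha hA h1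
  have a2 := half hw hb hB h2
  have a3 := mul_le_mul_of_nonneg_left h hw
  rw [mul_add] at a3
  linarith

end FAoa

theorem pAoa : S_Aoa := by
  intro h m G hAd hG
  have hb := bdd_of_ball hG
  refine ⟨?_, ?_, ?_⟩
  · intro r A B f g hf hg hA0 hB0 h1 h2
    refine ⟨?_, ?_⟩
    · intro i hi x hx
      exact FAoa.core (hAd.pos _).le (sq_nonneg' i f x) (sq_nonneg' i g x) (sq_nonneg' i _ x)
        hA0 hB0 (sqrt_sq_add_le i hf hg x) (h1.sup i hi x hx) (h2.sup i hi x hx)
    · intro i hi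
      exact FAoa.core (hAd.pos _).le (setInt_sq_nonneg i f G) (setInt_sq_nonneg i g G)
        (setInt_sq_nonneg i _ G) hA0 hB0
        (sqrt_int_add_le i hf hg (intOn_sq i hf hb) (intOn_sq i hg hb))
        (h1.l2 i hi) (h2.l2 i hi)
  · intro r A f k hf h1
    refine ⟨?_, ?_⟩
    · intro i hi x hx
      have a := h1.sup (i + 1) (by omega) x hx
      rw [show r + (i + 1) + 5 = r + 1 + i + 5 by omega] at a
      exact (mul_le_mul_of_nonneg_left (sq_pd_le i f k x) (sq_nonneg _)).trans a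
    · intro i hi
      have a := h1.l2 (i + 1) (by omega)
      rw [show r + (i + 1) = r + 1 + i by omega] at a
      refine (mul_le_mul_of_nonneg_left ?_ (sq_nonneg _)).trans a
      exact integral_mono (intOn_sq i (hf.pd k) hb) (intOn_sq (i + 1) hf hb)
        fun x => sq_pd_le i f k x
  · intro r A f h1
    have hsq : ∀ n : ℕ, h (n + 1) ^ 2 ≤ h n ^ 2 := fun n =>
      pow_le_pow_left₀ (hAd.pos _).le (hAd.anti n) 2
    refine ⟨?_, ?_⟩
    · intro i hi x hx
      have a := h1.sup i (by omega) x hx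
      have b := hsq (r + i + 5)
      rw [show r + i + 5 + 1 = r + 1 + i + 5 by omega] at b
      exact (mul_le_mul_of_nonneg_right b (sq_nonneg' i f x)).trans a
    · intro i hi
      have a := h1.l2 i (by omega)
      have b := hsq (r + i)
      rw [show r + i + 1 = r + 1 + i by omega] at b
      exact (mul_le_mul_of_nonneg_right b (setInt_sq_nonneg i f G)).trans a

end Pool.Agent.CR5
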