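import Pool.Agent.Lib.CR5.SpecF

/-!
# CR5, block F, Aof: sup and `L²` bounds from `NN`
-/

set_option autoImplicit false

open MeasureTheory Set Filter Topology
open scoped ENNReal ComplexConjugate

noncomputable section

namespace Pool.Agent.CR5

theorem pAof (h : S_Sup) : S_Aof := by
  obtain ⟨C, p, hC, hS⟩ := h
  refine ⟨C, p, hC, ?_⟩
  intro m w hw s hs hs1 Ω' Ω hsub hInn hΩ f hf
  have hCs : (1 : ℝ) ≤ (C / s) ^ p := by
    apply one_le_pow₀
    rw [le_div_iff₀ hs]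
    linarith
  have hN : 0 ≤ NN w m Ω f := NN_nonneg hw.pos m Ω f
  constructor
  · intro i hi x hx
    have h1 := hS m w hw s hs hs1 Ω' Ω hInn hΩ f hf i (by omega) x hx
    have h2 : 0 ≤ w (i + 5) * Real.sqrt (sq i f x) :=
      mul_nonneg (hw.pos _).le (Real.sqrt_nonneg _)
    have h3 := pow_le_pow_left₀ h2 h1 2
    rw [mul_pow, Real.sq_sqrt (sq_nonneg' i f x)] at h3
    rw [Nat.zero_add]
    exact h3
  · intro i hi
    rw [Nat.zero_add] at hi ⊢
    have h1 : w i * Real.sqrt (∫ x in Ω', sq i f x) ≤ (C / s) ^ p * NN w m Ω f := by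
      calc w i * Real.sqrt (∫ x in Ω', sq i f x) ≤ NN w m Ω' f := NN_term hw.pos hi Ω' f
        _ ≤ NN w m Ω f := NN_mono hw.pos m hsub (bdd_of_ball hΩ) hf
        _ = 1 * NN w m Ω f := (one_mul _).symm
        _ ≤ (C / s) ^ p * NN w m Ω f := mul_le_mul_of_nonneg_right hCs hN
    have h2 : 0 ≤ w i * Real.sqrt (∫ x in Ω', sq i f x) :=
      mul_nonneg (hw.pos _).le (Real.sqrt_nonneg _)
    have h3 := pow_le_pow_left₀ h2 h1 2
    rw [mul_pow, Real.sq_sqrt (setInt_sq_nonneg i f Ω')] at h3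
    exact h3

end Pool.Agent.CR5
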