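import Pool.Agent.Lib.CR5.SpecF

/-!
# CR5, block F: Aon (helper77, after helper33's docstring)
-/

open MeasureTheory Set Filter Topology
open scoped ENNReal ComplexConjugate

noncomputable section

namespace Pool.Agent.CR5

theorem pAon : S_Aon := by
  intro h m G A f hpos hA hf
  unfold NN
  have h1 : ∀ i ∈ Finset.range (m + 1), h i * Real.sqrt (∫ x in G, sq i f x) ≤ A := by
    intro i hi
    have hi' : i ≤ m := by
      have := Finset.mem_range.mp hi
      omega
    have h2 := hf.l2 i (by omega)
    rw [Nat.zero_add] at h2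
    have h3 := Real.sqrt_le_sqrt h2
    rw [Real.sqrt_mul (sq_nonneg _), Real.sqrt_sq (hpos i).le, Real.sqrt_sq hA] at h3
    exact h3
  refine (Finset.sum_le_sum h1).trans (le_of_eq ?_)
  rw [Finset.sum_const, Finset.card_range, nsmul_eq_mul]
  push_cast
  ring

end Pool.Agent.CR5
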