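import Pool.Agent.Lib.CR5.SpecF

/-!
# CR5, block F: products (the algebra property, `S_Aop`)
-/

open MeasureTheory Set Filter Topology
open scoped ENNReal ComplexConjugate

noncomputable section

namespace Pool.Agent.CR5

namespace FAop

/-- One term of the `L²` bound, when the first factor has the smaller order. -/
theorem claim {h : ℕ → ℝ} {m : ℕ} (hh : Adm h m) {G : Set E5} (hG : IsOpen G)
    (hGb : G ⊆ Metric.ball 0 1) {u v : ℕ} (huv : u ≤ v) (hm : u + v ≤ m) {A B : ℝ}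
    {p q : E5 → ℝ} (hp : Continuous p) (hq : Continuous q) (hq0 : ∀ x, 0 ≤ q x)
    (h1 : ∀ x ∈ G, h (u + 5) ^ 2 * p x ≤ A ^ 2)
    (h2 : h v ^ 2 * ∫ x in G, q x ≤ B ^ 2) :
    h (u + v) ^ 2 * ∫ x in G, p x * q x ≤ A ^ 2 * B ^ 2 := by
  have hb : Bornology.IsBounded G := bdd_of_ball hGb
  have hmul : h (u + v) ≤ h (u + 5) * h v := hh.mul u v huv hm
  have hpos : 0 < h (u + v) := hh.pos _
  have hu5 : 0 < h (u + 5) := hh.pos _
  have hv : 0 < h v := hh.pos _
  -- pointwise
  have hA : ∀ x ∈ G, h (u + 5) ^ 2 * h v ^ 2 * (p x * q x) ≤ A ^ 2 * (h v ^ 2 * q x) := by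
    intro x hx
    have := mul_le_mul_of_nonneg_right (h1 x hx) (mul_nonneg (sq_nonneg (h v)) (hq0 x))
    nlinarith
  have hint : h (u + 5) ^ 2 * h v ^ 2 * ∫ x in G, p x * q x ≤ A ^ 2 * (h v ^ 2 * ∫ x in G, q x) := by
    rw [← integral_const_mul, ← integral_const_mul, ← integral_const_mul]
    refine setIntegral_mono_on ?_ ?_ hG.measurableSet hA
    · exact intOn_cont (continuous_const.mul (hp.mul hq)) hb
    · exact intOn_cont (continuous_const.mul (continuous_const.mul hq)) hb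
  have hB : A ^ 2 * (h v ^ 2 * ∫ x in G, q x) ≤ A ^ 2 * B ^ 2 :=
    mul_le_mul_of_nonneg_left h2 (sq_nonneg A)
  by_cases hI : 0 ≤ ∫ x in G, p x * q x
  · have hsq : h (u + v) ^ 2 ≤ h (u + 5) ^ 2 * h v ^ 2 := by
      rw [← mul_pow]; exact pow_le_pow_left₀ hpos.le hmul 2
    exact (mul_le_mul_of_nonneg_right hsq hI).trans (hint.trans hB)
  · push Not at hI
    exact (mul_nonpos_of_nonneg_of_nonpos (sq_nonneg _) hI.le).trans
      (mul_nonneg (sq_nonneg _) (sq_nonneg _))

/-- One term of the sup bound. -/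
theorem claimSup {h : ℕ → ℝ} {m : ℕ} (hh : Adm h m) {u v : ℕ} (hm : u + v + 5 ≤ m) {A B P Q : ℝ}
    (hP : 0 ≤ P) (hQ : 0 ≤ Q) (h1 : h (u + 5) ^ 2 * P ≤ A ^ 2) (h2 : h (v + 5) ^ 2 * Q ≤ B ^ 2) :
    h (u + v + 5) ^ 2 * (P * Q) ≤ A ^ 2 * B ^ 2 := by
  have hmul : h (u + v + 5) ≤ h (u + 5) * h (v + 5) := by
    rcases le_total u (v + 5) with h' | h'
    · have := hh.mul u (v + 5) h' (by omega)
      have e : u + (v + 5) = u + v + 5 := by ring
      rwa [e] at this
    · have := hh.mul v (u + 5) (by omega) (by omega)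
      have e : v + (u + 5) = u + v + 5 := by ring
      rw [e, mul_comm] at this
      exact this
  have hpos : 0 < h (u + v + 5) := hh.pos _
  have hsq : h (u + v + 5) ^ 2 ≤ h (u + 5) ^ 2 * h (v + 5) ^ 2 := by
    rw [← mul_pow]; exact pow_le_pow_left₀ hpos.le hmul 2
  calc h (u + v + 5) ^ 2 * (P * Q) ≤ (h (u + 5) ^ 2 * h (v + 5) ^ 2) * (P * Q) :=
        mul_le_mul_of_nonneg_right hsq (mul_nonneg hP hQ)
    _ = (h (u + 5) ^ 2 * P) * (h (v + 5) ^ 2 * Q) := by ring
    _ ≤ A ^ 2 * B ^ 2 := mul_le_mul h1 h2 (mul_nonneg (sq_nonneg _) hQ) (sq_nonneg _)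

theorem const_le {m i : ℕ} (hi : i ≤ m) :
    (4 : ℝ) ^ i * ((i : ℝ) + 1) ≤ (4 ^ m * ((m : ℝ) + 1)) ^ 2 := by
  have h4 : (4 : ℝ) ^ i ≤ 4 ^ m := pow_le_pow_right₀ (by norm_num) hi
  have hi' : (i : ℝ) ≤ m := by exact_mod_cast hi
  have h1 : (4 : ℝ) ^ i * ((i : ℝ) + 1) ≤ 4 ^ m * ((m : ℝ) + 1) :=
    mul_le_mul h4 (by linarith) (by positivity) (by positivity)
  have h2 : (1 : ℝ) ≤ 4 ^ m * ((m : ℝ) + 1) := by
    have a : (1 : ℝ) ≤ 4 ^ m := one_le_pow₀ (by norm_num)
    have b : (1 : ℝ) ≤ (m : ℝ) + 1 := by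
      have : (0 : ℝ) ≤ m := Nat.cast_nonneg m
      linarith
    nlinarith
  nlinarith

end FAop

open FAop

theorem pAop : S_Aop := by
  intro m
  have hC1 : (1 : ℝ) ≤ 4 ^ m * ((m : ℝ) + 1) := by
    have a : (1 : ℝ) ≤ 4 ^ m := one_le_pow₀ (by norm_num)
    have b : (1 : ℝ) ≤ (m : ℝ) + 1 := by
      have : (0 : ℝ) ≤ m := Nat.cast_nonneg m
      linarith
    nlinarith
  refine ⟨4 ^ m * ((m : ℝ) + 1), hC1, ?_⟩
  intro h hh G hG hGb r r' A B f g hf hg hA hB ha hb
  have hbd : Bornology.IsBounded G := bdd_of_ball hGb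
  have hfin : ∀ i ≤ m, (4 : ℝ) ^ i * (((i : ℝ) + 1) * (A ^ 2 * B ^ 2))
      ≤ ((4 ^ m * ((m : ℝ) + 1)) * A * B) ^ 2 := by
    intro i hi
    have := mul_le_mul_of_nonneg_right (const_le hi) (mul_nonneg (sq_nonneg A) (sq_nonneg B))
    calc (4 : ℝ) ^ i * (((i : ℝ) + 1) * (A ^ 2 * B ^ 2))
        = (4 : ℝ) ^ i * ((i : ℝ) + 1) * (A ^ 2 * B ^ 2) := by ring
      _ ≤ _ := this
      _ = _ := by ring
  constructor
  · -- sup
    intro i hi x hx
    have hterm : ∀ j ∈ Finset.range (i + 1),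
        h (r + r' + i + 5) ^ 2 * (sq j f x * sq (i - j) g x) ≤ A ^ 2 * B ^ 2 := by
      intro j hj
      have hj' : j ≤ i := by have := Finset.mem_range.1 hj; omega
      have e : r + r' + i + 5 = (r + j) + (r' + (i - j)) + 5 := by omega
      rw [e]
      exact claimSup hh (by omega) (sq_nonneg' _ _ _) (sq_nonneg' _ _ _)
        (ha.sup j (by omega) x hx) (hb.sup (i - j) (by omega) x hx)
    have hle := sq_mul_le i hf hg x
    calc h (r + r' + i + 5) ^ 2 * sq i (fun y => f y * g y) x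
        ≤ h (r + r' + i + 5) ^ 2 * (4 ^ i * ∑ j ∈ Finset.range (i + 1), sq j f x * sq (i - j) g x) :=
          mul_le_mul_of_nonneg_left hle (sq_nonneg _)
      _ = 4 ^ i * ∑ j ∈ Finset.range (i + 1),
            h (r + r' + i + 5) ^ 2 * (sq j f x * sq (i - j) g x) := by
          rw [← Finset.mul_sum]; ring
      _ ≤ 4 ^ i * ∑ _j ∈ Finset.range (i + 1), A ^ 2 * B ^ 2 :=
          mul_le_mul_of_nonneg_left (Finset.sum_le_sum hterm) (by positivity)
      _ = 4 ^ i * (((i : ℝ) + 1) * (A ^ 2 * B ^ 2)) := by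
          rw [Finset.sum_const, Finset.card_range, nsmul_eq_mul]; push_cast; ring
      _ ≤ _ := hfin i (by omega)
  · -- l2
    intro i hi
    have hterm : ∀ j ∈ Finset.range (i + 1),
        h (r + r' + i) ^ 2 * (∫ x in G, sq j f x * sq (i - j) g x) ≤ A ^ 2 * B ^ 2 := by
      intro j hj
      have hj' : j ≤ i := by have := Finset.mem_range.1 hj; omega
      have e : r + r' + i = (r + j) + (r' + (i - j)) := by omega
      have hbig := hh.big
      have hM : MM = 10 := rfl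
      rw [e]
      rcases le_total (r + j) (r' + (i - j)) with hle | hle
      · exact claim hh hG hGb hle (by omega) (sq_continuous j hf) (sq_continuous (i - j) hg)
          (fun x => sq_nonneg' _ _ _) (fun x hx => ha.sup j (by omega) x hx)
          (hb.l2 (i - j) (by omega))
      · have hc := claim hh hG hGb hle (by omega) (sq_continuous (i - j) hg) (sq_continuous j hf)
          (fun x => sq_nonneg' _ _ _) (fun x hx => hb.sup (i - j) (by omega) x hx)
          (ha.l2 j (by omega))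
        rw [add_comm (r + j), mul_comm (A ^ 2)]
        simpa only [mul_comm (sq j f _)] using hc
    have hle : ∫ x in G, sq i (fun y => f y * g y) x
        ≤ 4 ^ i * ∑ j ∈ Finset.range (i + 1), ∫ x in G, sq j f x * sq (i - j) g x := by
      have hc : ∀ j, Continuous fun x => sq j f x * sq (i - j) g x := fun j =>
        (sq_continuous j hf).mul (sq_continuous (i - j) hg)
      have hi' : ∀ j ∈ Finset.range (i + 1),
          Integrable (fun x => sq j f x * sq (i - j) g x) (volume.restrict G) :=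
        fun j _ => intOn_cont (hc j) hbd
      rw [← integral_finsetSum _ hi', ← integral_const_mul]
      refine setIntegral_mono_on (intOn_sq i (hf.mul hg) hbd) (intOn_cont (continuous_const.mul
        (continuous_finsetSum _ fun j _ => hc j)) hbd) hG.measurableSet
        fun x _ => sq_mul_le i hf hg x
    calc h (r + r' + i) ^ 2 * ∫ x in G, sq i (fun y => f y * g y) x
        ≤ h (r + r' + i) ^ 2 * (4 ^ i * ∑ j ∈ Finset.range (i + 1),
            ∫ x in G, sq j f x * sq (i - j) g x) := mul_le_mul_of_nonneg_left hle (sq_nonneg _)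
      _ = 4 ^ i * ∑ j ∈ Finset.range (i + 1),
            h (r + r' + i) ^ 2 * (∫ x in G, sq j f x * sq (i - j) g x) := by
          rw [← Finset.mul_sum]; ring
      _ ≤ 4 ^ i * ∑ _j ∈ Finset.range (i + 1), A ^ 2 * B ^ 2 :=
          mul_le_mul_of_nonneg_left (Finset.sum_le_sum hterm) (by positivity)
      _ = 4 ^ i * (((i : ℝ) + 1) * (A ^ 2 * B ^ 2)) := by
          rw [Finset.sum_const, Finset.card_range, nsmul_eq_mul]; push_cast; ring
      _ ≤ _ := hfin i (by omega)

end Pool.Agent.CR5
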