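import Pool.Agent.Lib.CR5.SpecF

/-!
# CR5, block F: bump functions with bounds
-/

open MeasureTheory Set Filter Topology
open scoped ENNReal ComplexConjugate

noncomputable section

namespace Pool.Agent.CR5

namespace FBmp

theorem bdd {φ : E5 → ℂ} (hφ : Sm φ) (h0 : ∀ x, 1 / 2 ≤ ‖x‖ → φ x = 0) (i : ℕ) :
    ∃ B : ℝ, 0 ≤ B ∧ ∀ x, sq i φ x ≤ B := by
  obtain ⟨C, hC⟩ := (isCompact_closedBall (0 : E5) 1).exists_bound_of_continuousOn
    (sq_continuous i hφ).continuousOn
  refine ⟨max C 0, le_max_right _ _, ?_⟩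
  intro x
  by_cases hx : ‖x‖ ≤ 1
  · have h1 := hC x (by rw [mem_closedBall_zero_iff]; exact hx)
    exact (le_abs_self _).trans (h1.trans (le_max_left _ _))
  · push Not at hx
    have hopen : IsOpen {y : E5 | 1 / 2 < ‖y‖} := isOpen_lt continuous_const continuous_norm
    have h1 : sq i φ x = sq i (fun _ => (0 : ℂ)) x :=
      sq_eq_of_open hopen (fun y hy => h0 y (le_of_lt hy)) (show (1 / 2 : ℝ) < ‖x‖ by linarith)
    rw [h1, sq_zero_fun]
    exact le_max_right _ _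

end FBmp

theorem pBmp (h : S_Sca) : S_Bmp := by
  intro m
  let b : ContDiffBump (0 : E5) := ⟨1 / 4, 1 / 2, by norm_num, by norm_num⟩
  let φ : E5 → ℂ := fun x => (b x : ℂ)
  have hφ : Sm φ := Sm.ofReal b.contDiff
  have h0 : ∀ x, 1 / 2 ≤ ‖x‖ → φ x = 0 := by
    intro x hx
    show ((b x : ℝ) : ℂ) = 0
    rw [b.zero_of_le_dist (by rw [dist_zero_right]; exact hx), Complex.ofReal_zero]
  have h1 : φ 0 = 1 := by
    show ((b 0 : ℝ) : ℂ) = 1
    rw [b.one_of_mem_closedBall (Metric.mem_closedBall_self (by norm_num [b])), Complex.ofReal_one]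
  choose B hB0 hB using fun i => FBmp.bdd hφ h0 i
  refine ⟨1 + ∑ i ∈ Finset.range (m + 1), B i, ?_, ?_⟩
  · have : 0 ≤ ∑ i ∈ Finset.range (m + 1), B i := Finset.sum_nonneg fun i _ => hB0 i
    linarith
  intro x0 s hs hs1
  set C : ℝ := 1 + ∑ i ∈ Finset.range (m + 1), B i with hC
  have hC1 : 1 ≤ C := by
    have : 0 ≤ ∑ i ∈ Finset.range (m + 1), B i := Finset.sum_nonneg fun i _ => hB0 i
    linarith
  have hzero : ∀ x, s / 2 ≤ dist x x0 → φ (s⁻¹ • (x - x0)) = 0 := by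
    intro x hx
    apply h0
    rw [norm_smul, norm_inv, Real.norm_of_nonneg hs.le, ← dist_eq_norm]
    rw [inv_mul_eq_div, le_div_iff₀ hs]
    linarith
  refine ⟨fun x => φ (s⁻¹ • (x - x0)), ⟨?_, ?_⟩, ?_, hzero, ?_⟩
  · have h2 : ContDiff ℝ (⊤ : ℕ∞) (fun x : E5 => s⁻¹ • (x - x0)) :=
      (contDiff_id.sub contDiff_const).const_smul s⁻¹
    exact ContDiff.comp hφ h2
  · refine HasCompactSupport.of_support_subset_isCompact (isCompact_closedBall x0 (s / 2)) ?_
    intro x hx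
    by_contra hcon
    apply hx
    apply hzero
    rw [Metric.mem_closedBall, not_le] at hcon
    exact hcon.le
  · show φ (s⁻¹ • (x0 - x0)) = 1
    rw [sub_self, smul_zero, h1]
  · intro i hi x
    rw [h i φ hφ s⁻¹ x0 x]
    have hBi : B i ≤ C := by
      have := Finset.single_le_sum (f := B) (s := Finset.range (m + 1)) (fun k _ => hB0 k)
        (Finset.mem_range.2 (by omega : i < m + 1))
      linarith
    have h3 : sq i φ (s⁻¹ • (x - x0)) ≤ C ^ 2 := by
      have := hB i (s⁻¹ • (x - x0))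
      nlinarith
    have h4 : (C / s ^ i) ^ 2 = (s⁻¹ ^ i) ^ 2 * C ^ 2 := by
      rw [div_pow, inv_pow]
      field_simp
    rw [h4]
    exact mul_le_mul_of_nonneg_left h3 (sq_nonneg _)

end Pool.Agent.CR5
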