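import Pool.Agent.Lib.CR5.SpecF

/-!
# CR5, block F: convolution of an indicator with a test function
-/

open MeasureTheory Set Filter Topology
open scoped ENNReal ComplexConjugate

noncomputable section

namespace Pool.Agent.CR5

namespace FCnv

/-- The indicator of `A`. -/
def one (A : Set E5) : E5 → ℝ := A.indicator fun _ => 1

theorem locInt {A : Set E5} (hA : MeasurableSet A) : LocallyIntegrable (one A) volume := by
  have h1 : LocallyIntegrable (fun _ : E5 => (1 : ℝ)) volume := locallyIntegrable_const 1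
  exact h1.indicator hA

/-- The bilinear map. -/
abbrev bm : ℂ →L[ℝ] ℝ →L[ℝ] ℂ := (ContinuousLinearMap.lsmul ℝ ℝ : ℝ →L[ℝ] ℂ →L[ℝ] ℂ).flip

theorem eq_conv {A : Set E5} (hA : MeasurableSet A) (ρ : E5 → ℂ) :
    cv A ρ = MeasureTheory.convolution ρ (one A) bm volume := by
  funext x
  rw [convolution_eq_swap]
  unfold cv
  rw [← integral_indicator hA]
  refine integral_congr_ae (Eventually.of_forall fun y => ?_)
  show A.indicator (fun y => ρ (x - y)) y = bm (ρ (x - y)) (one A y)
  have e : bm (ρ (x - y)) (one A y) = (one A y) • ρ (x - y) := rfl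
  rw [e]
  unfold one
  by_cases hy : y ∈ A
  · rw [indicator_of_mem hy, indicator_of_mem hy, one_smul]
  · rw [indicator_of_notMem hy, indicator_of_notMem hy, zero_smul]

end FCnv

theorem pCnv : S_Cnv := by
  intro A hA ρ hρ
  have hl := FCnv.locInt hA
  have h1 : ContDiff ℝ 1 ρ := hρ.sm.of_le (by
    have : ((1 : ℕ∞) : WithTop ℕ∞) ≤ ((⊤ : ℕ∞) : WithTop ℕ∞) := WithTop.coe_le_coe.2 le_top
    exact this)
  refine ⟨?_, ?_⟩
  · rw [FCnv.eq_conv hA]
    exact hρ.cs.contDiff_convolution_left FCnv.bm hρ.sm hl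
  · intro k x
    have hd := hρ.cs.hasFDerivAt_convolution_left (𝕜 := ℝ) FCnv.bm h1 hl x
    have e1 : pd k (cv A ρ) x
        = (MeasureTheory.convolution (fderiv ℝ ρ) (FCnv.one A) (FCnv.bm.precompL E5) volume x)
          (e5 k) := by
      unfold pd
      rw [FCnv.eq_conv hA, hd.fderiv]
    have hex : ConvolutionExists (fderiv ℝ ρ) (FCnv.one A) (FCnv.bm.precompL E5) volume :=
      (hρ.cs.fderiv (𝕜 := ℝ)).convolutionExists_left _ (h1.continuous_fderiv one_ne_zero) hl
    rw [e1, FCnv.eq_conv hA]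
    unfold MeasureTheory.convolution
    rw [ContinuousLinearMap.integral_apply (hex x)]
    refine integral_congr_ae (Eventually.of_forall fun t => ?_)
    rfl

end Pool.Agent.CR5
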