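import Pool.Agent.Lib.CR5.SpecF

/-!
# CR5, F/Cut1: cutoff functions at the scale one
-/

open MeasureTheory Set Filter Topology
open scoped ENNReal ComplexConjugate

noncomputable section

namespace Pool.Agent.CR5

namespace FCut1

/-- Test functions with support in the unit ball. -/
structure TB (q : E5 → ℂ) : Prop where
  tst : Tst q
  sup : tsupport q ⊆ Metric.ball 0 1

theorem TB.pd {q : E5 → ℂ} (h : TB q) (k : Fin 5) : TB (pd k q) := by
  refine ⟨h.tst.pd k, ?_⟩
  refine (closure_minimal ?_ (isClosed_tsupport q)).trans h.sup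
  intro x hx
  have h1 : x ∈ Function.support (fderiv ℝ q) := by
    intro h0
    apply hx
    show fderiv ℝ q x (e5 k) = 0
    rw [h0]; rfl
  exact support_fderiv_subset ℝ h1

theorem sq_zero_out (i : ℕ) {q : E5 → ℂ} {x : E5} (hx : x ∉ tsupport q) : sq i q x = 0 := by
  have h1 : sq i q x = sq i (fun _ => (0 : ℂ)) x :=
    sq_eq_of_open (isClosed_tsupport q).isOpen_compl
      (fun y hy => image_eq_zero_of_notMem_tsupport hy) hx
  rw [h1, sq_zero_fun]

theorem int_sq (i : ℕ) {q : E5 → ℂ} (h : Tst q) : Integrable (sq i q) volume := by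
  refine (sq_continuous i h.sm).integrable_of_hasCompactSupport ?_
  refine HasCompactSupport.intro h.cs.isCompact ?_
  intro x hx
  exact sq_zero_out i hx

/-- Cauchy-Schwarz on the unit ball. -/
theorem cs_ball {u : E5 → ℝ} (hu : Continuous u) :
    (∫ x in Metric.ball (0 : E5) 1, u x) ^ 2 ≤ volB * ∫ x in Metric.ball (0 : E5) 1, u x ^ 2 := by
  have hb : Bornology.IsBounded (Metric.ball (0 : E5) 1) := Metric.isBounded_ball
  have i1 : IntegrableOn u (Metric.ball (0 : E5) 1) volume := intOn_cont hu hb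
  have i2 : IntegrableOn (fun x => u x ^ 2) (Metric.ball (0 : E5) 1) volume :=
    intOn_cont (hu.pow 2) hb
  have i0 : ∀ t : ℝ, IntegrableOn (fun _ : E5 => t ^ 2) (Metric.ball (0 : E5) 1) volume :=
    fun t => intOn_cont continuous_const hb
  have hv : ∀ c : ℝ, ∫ _x in Metric.ball (0 : E5) 1, c = c * volB := by
    intro c
    rw [setIntegral_const, smul_eq_mul, mul_comm]
    rfl
  have key : ∀ t : ℝ, ∫ x in Metric.ball (0 : E5) 1, (u x + t) ^ 2
      = (∫ x in Metric.ball (0 : E5) 1, u x ^ 2) + 2 * t * (∫ x in Metric.ball (0 : E5) 1, u x)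
        + t ^ 2 * volB := by
    intro t
    have e : ∀ x, (u x + t) ^ 2 = (u x ^ 2 + 2 * t * u x) + t ^ 2 := fun x => by ring
    simp only [e]
    have i3 : IntegrableOn (fun x => u x ^ 2 + 2 * t * u x) (Metric.ball (0 : E5) 1) volume :=
      i2.add (i1.const_mul _)
    rw [integral_add i3 (i0 t), integral_add i2 (i1.const_mul _), integral_const_mul, hv]
  have h2 : discrim volB (2 * ∫ x in Metric.ball (0 : E5) 1, u x)
      (∫ x in Metric.ball (0 : E5) 1, u x ^ 2) ≤ 0 := by
    refine discrim_le_zero fun t => ?_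
    have h3 : 0 ≤ ∫ x in Metric.ball (0 : E5) 1, (u x + t) ^ 2 :=
      integral_nonneg fun x => sq_nonneg _
    rw [key t] at h3
    nlinarith
  unfold discrim at h2
  nlinarith

theorem norm_cv {q : E5 → ℂ} (h : TB q) (A : Set E5) (x : E5) :
    ‖cv A q x‖ ^ 2 ≤ volB * ∫ y, ‖q y‖ ^ 2 := by
  have hz : ∀ y, y ∉ Metric.ball (0 : E5) 1 → q y = 0 := fun y hy =>
    image_eq_zero_of_notMem_tsupport fun h' => hy (h.sup h')
  have hi : Integrable (fun y => ‖q (x - y)‖) volume :=
    (h.tst.integrable.norm).comp_sub_left x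
  have h1 : ‖cv A q x‖ ≤ ∫ y in Metric.ball (0 : E5) 1, ‖q y‖ := by
    calc ‖cv A q x‖ ≤ ∫ y in A, ‖q (x - y)‖ := norm_integral_le_integral_norm _
      _ ≤ ∫ y, ‖q (x - y)‖ :=
          setIntegral_le_integral hi (Eventually.of_forall fun y => norm_nonneg _)
      _ = ∫ y, ‖q y‖ := integral_sub_left_eq_self (fun y => ‖q y‖) volume x
      _ = ∫ y in Metric.ball (0 : E5) 1, ‖q y‖ := by
          rw [setIntegral_eq_integral_of_forall_compl_eq_zero]
          intro y hy
          rw [hz y hy, norm_zero]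
  have h2 : ∫ y in Metric.ball (0 : E5) 1, ‖q y‖ ^ 2 = ∫ y, ‖q y‖ ^ 2 := by
    rw [setIntegral_eq_integral_of_forall_compl_eq_zero]
    intro y hy
    rw [hz y hy, norm_zero]
    norm_num
  have h3 := cs_ball h.tst.sm.cont.norm
  rw [h2] at h3
  have h4 : ‖cv A q x‖ ^ 2 ≤ (∫ y in Metric.ball (0 : E5) 1, ‖q y‖) ^ 2 :=
    pow_le_pow_left₀ (norm_nonneg _) h1 2
  exact h4.trans h3

theorem sq_cv (h1 : S_Cnv) {A : Set E5} (hA : MeasurableSet A) : ∀ (i : ℕ) {q : E5 → ℂ}, TB q →
    ∀ x, sq i (cv A q) x ≤ volB * ∫ y, sq i q y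
  | 0, q, h, x => norm_cv h A x
  | i + 1, q, h, x => by
    rw [sq_succ]
    have e : ∫ y, sq (i + 1) q y = ∑ k : Fin 5, ∫ y, sq i (pd k q) y := by
      rw [← integral_finsetSum]
      · rfl
      · intro k _
        exact int_sq i (h.tst.pd k)
    rw [e, Finset.mul_sum]
    refine Finset.sum_le_sum fun k _ => ?_
    have e2 : pd k (cv A q) = cv A (pd k q) := funext fun y => (h1 A hA q h.tst).2 k y
    rw [e2]
    exact sq_cv h1 hA i (h.pd k) x

end FCut1

open FCut1 in
theorem pCut1 (h1 : S_Cnv) : S_Cut1 := by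
  intro m
  let b : ContDiffBump (0 : E5) := ⟨1 / 4, 3 / 8, by norm_num, by norm_num⟩
  let r : E5 → ℝ := b.normed volume
  let ρ : E5 → ℂ := fun x => (r x : ℂ)
  have hr : ContDiff ℝ (⊤ : ℕ∞) r := b.contDiff_normed
  have hr0 : ∀ x, 0 ≤ r x := fun x => b.nonneg_normed x
  have hr1 : ∫ x, r x = 1 := b.integral_normed
  have hrc : HasCompactSupport r := b.hasCompactSupport_normed
  have hrs : ∀ x, r x ≠ 0 → ‖x‖ < 3 / 8 := by
    intro x hx
    have h2 : x ∈ Function.support (b.normed volume) := hx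
    rw [b.support_normed_eq] at h2
    exact mem_ball_zero_iff.1 h2
  have hri : Integrable r volume := hr.continuous.integrable_of_hasCompactSupport hrc
  have hρt : Tst ρ := by
    refine ⟨Sm.ofReal hr, ?_⟩
    exact hrc.comp_left (g := fun t : ℝ => (t : ℂ)) Complex.ofReal_zero
  have hρ : TB ρ := by
    refine ⟨hρt, ?_⟩
    have h3 : Function.support ρ ⊆ Metric.closedBall (0 : E5) (3 / 8) := by
      intro x hx
      rw [mem_closedBall_zero_iff]
      refine (hrs x ?_).le
      intro h0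
      apply hx
      show ((r x : ℝ) : ℂ) = 0
      rw [h0, Complex.ofReal_zero]
    refine (closure_minimal h3 Metric.isClosed_closedBall).trans ?_
    exact Metric.closedBall_subset_ball (by norm_num)
  have hB0 : ∀ i, 0 ≤ volB * ∫ y, sq i ρ y := fun i =>
    mul_nonneg volB_nonneg (integral_nonneg fun y => sq_nonneg' i ρ y)
  have hS0 : 0 ≤ ∑ i ∈ Finset.range (m + 1), volB * ∫ y, sq i ρ y :=
    Finset.sum_nonneg fun i _ => hB0 i
  refine ⟨1 + ∑ i ∈ Finset.range (m + 1), volB * ∫ y, sq i ρ y, by linarith, ?_⟩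
  intro A
  have hA1 : MeasurableSet (Metric.thickening (5 / 8) A) := Metric.isOpen_thickening.measurableSet
  have hcv : ∀ x, cv (Metric.thickening (5 / 8) A) ρ x
      = ((∫ y in Metric.thickening (5 / 8) A, r (x - y) : ℝ) : ℂ) := by
    intro x
    show ∫ y in Metric.thickening (5 / 8) A, ((r (x - y) : ℝ) : ℂ) = _
    exact integral_ofReal
  have hix : ∀ x, Integrable (fun y => r (x - y)) volume := fun x => hri.comp_sub_left x
  have hfull : ∀ x, ∫ y, r (x - y) = 1 := by
    intro x
    rw [integral_sub_left_eq_self r volume x]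
    exact hr1
  refine ⟨cv (Metric.thickening (5 / 8) A) ρ, (h1 _ hA1 ρ hρt).1, ?_, ?_, ?_, ?_⟩
  · intro x
    refine ⟨∫ y in Metric.thickening (5 / 8) A, r (x - y),
      integral_nonneg fun y => hr0 _, ?_, hcv x⟩
    rw [← hfull x]
    exact setIntegral_le_integral (hix x) (Eventually.of_forall fun y => hr0 _)
  · intro y hy x hxy
    rw [hcv, setIntegral_eq_integral_of_forall_compl_eq_zero, hfull, Complex.ofReal_one]
    intro z hz
    by_contra hne
    apply hz
    have h2 := hrs _ hne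
    rw [← dist_eq_norm] at h2
    rw [Metric.mem_thickening_iff]
    refine ⟨y, hy, ?_⟩
    have h3 := dist_triangle z x y
    rw [dist_comm z x] at h3
    linarith
  · intro x hx
    by_contra hcon
    apply hx
    rw [hcv, setIntegral_eq_zero_of_forall_eq_zero, Complex.ofReal_zero]
    intro z hz
    by_contra hne
    apply hcon
    have h2 := hrs _ hne
    rw [← dist_eq_norm] at h2
    rw [Metric.mem_thickening_iff] at hz
    obtain ⟨y, hy, hzy⟩ := hz
    refine ⟨y, hy, ?_⟩
    have h3 := dist_triangle x z y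
    linarith
  · intro i hi x
    have h2 := sq_cv h1 hA1 i hρ x
    have h3 : volB * ∫ y, sq i ρ y ≤ ∑ i ∈ Finset.range (m + 1), volB * ∫ y, sq i ρ y :=
      Finset.single_le_sum (f := fun i => volB * ∫ y, sq i ρ y) (fun i _ => hB0 i)
        (Finset.mem_range.2 (by omega))
    nlinarith

end Pool.Agent.CR5
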