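import Pool.Agent.Lib.CR5.SpecF

/-!
# CR5, F/Cut2: cutoff functions at the scale `s`
-/

open MeasureTheory Set Filter Topology
open scoped ENNReal ComplexConjugate

noncomputable section

namespace Pool.Agent.CR5

theorem pCut2 (h1 : S_Cut1) (h2 : S_Sca) : S_Cut2 := by
  intro m
  obtain ⟨C, hC, h⟩ := h1 m
  refine ⟨C, hC, ?_⟩
  intro A s hs hs1
  obtain ⟨χ, c1, c2, c3, c4, c5⟩ := h {z | s • z ∈ A}
  have hs0 : s ≠ 0 := hs.ne'
  have hdist : ∀ x y : E5, dist (s⁻¹ • x) (s⁻¹ • y) = s⁻¹ * dist x y := by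
    intro x y
    rw [dist_smul₀, Real.norm_eq_abs, abs_of_pos (inv_pos.2 hs)]
  refine ⟨fun y => χ (s⁻¹ • (y - 0)), ?_, ?_, ?_, ?_, ?_⟩
  · have hg : ContDiff ℝ (⊤ : ℕ∞) (fun y : E5 => s⁻¹ • (y - 0)) := by
      have h0 : ContDiff ℝ (⊤ : ℕ∞) (fun y : E5 => y - 0) := contDiff_id.sub contDiff_const
      exact h0.const_smul s⁻¹
    exact c1.contDiff.comp hg
  · intro x
    exact c2 _
  · intro y hy x hxy
    have hy' : s⁻¹ • y ∈ {z | s • z ∈ A} := by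
      show s • (s⁻¹ • y) ∈ A
      rw [smul_inv_smul₀ hs0]
      exact hy
    show χ (s⁻¹ • (x - 0)) = 1
    refine c3 _ hy' _ ?_
    rw [sub_zero, hdist]
    rw [inv_mul_lt_iff₀ hs]
    linarith
  · intro x hx
    obtain ⟨y, hy, hxy⟩ := c4 _ hx
    refine ⟨s • y, hy, ?_⟩
    rw [sub_zero] at hxy
    have e1 : y = s⁻¹ • (s • y) := (inv_smul_smul₀ hs0 y).symm
    rw [e1, hdist, inv_mul_lt_iff₀ hs, mul_one] at hxy
    exact hxy
  · intro i hi x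
    have e1 := h2 i χ c1 s⁻¹ 0 x
    rw [e1]
    have e2 := c5 i hi (s⁻¹ • (x - 0))
    have e3 : (C / s ^ i) ^ 2 = ((s⁻¹) ^ i) ^ 2 * C ^ 2 := by
      rw [inv_pow, div_eq_mul_inv]
      ring
    rw [e3]
    exact mul_le_mul_of_nonneg_left e2 (by positivity)

end Pool.Agent.CR5
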