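import Pool.Agent.Lib.CR5.SpecF

/-!
# CR5, block F: pointwise bounds of an exponential
-/

open MeasureTheory Set Filter Topology
open scoped ENNReal ComplexConjugate

noncomputable section

namespace Pool.Agent.CR5

namespace FEpt

theorem step {n : ℕ} {c B : ℝ} (hc : 1 ≤ c) {φ : E5 → ℂ} (hφ : Sm φ) {x : E5} (hB : 1 ≤ B)
    (hb : ∀ i, 1 ≤ i → i ≤ n + 1 → sq i φ x ≤ B ^ 2)
    (ih : ∀ i ≤ n, sq i (fun y => Complex.exp (φ y)) x
      ≤ (c * B ^ i * ‖Complex.exp (φ x)‖) ^ 2) :
    sq (n + 1) (fun y => Complex.exp (φ y)) x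
      ≤ (5 * 4 ^ n * (n + 1)) * (c * B ^ (n + 1) * ‖Complex.exp (φ x)‖) ^ 2 := by
  set E := ‖Complex.exp (φ x)‖ with hE
  have hE0 : 0 ≤ E := norm_nonneg _
  rw [sq_succ]
  have h1 : ∀ k ∈ Finset.univ, sq n (pd k fun y => Complex.exp (φ y)) x
      ≤ 4 ^ n * ((n + 1) * (c * B ^ (n + 1) * E) ^ 2) := by
    intro k _
    have e : (pd k fun y => Complex.exp (φ y)) = fun y => Complex.exp (φ y) * pd k φ y := by
      funext y; exact pd_cexp hφ k y
    rw [e]
    refine (sq_mul_le n hφ.cexp (hφ.pd k) x).trans ?_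
    refine mul_le_mul_of_nonneg_left ?_ (by positivity)
    have h2 : ∀ j ∈ Finset.range (n + 1),
        sq j (fun y => Complex.exp (φ y)) x * sq (n - j) (pd k φ) x
          ≤ (c * B ^ (n + 1) * E) ^ 2 := by
      intro j hj
      have hj' : j ≤ n := by have := Finset.mem_range.1 hj; omega
      have a1 := ih j hj'
      have a2 : sq (n - j) (pd k φ) x ≤ B ^ 2 :=
        (sq_pd_le (n - j) φ k x).trans (hb _ (by omega) (by omega))
      have a3 : c * B ^ j * E ≤ c * B ^ n * E := by
        refine mul_le_mul_of_nonneg_right ?_ hE0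
        exact mul_le_mul_of_nonneg_left (pow_le_pow_right₀ hB hj') (by linarith)
      have hB0 : 0 ≤ B := by linarith
      have hc0 : 0 ≤ c := by linarith
      calc sq j (fun y => Complex.exp (φ y)) x * sq (n - j) (pd k φ) x
          ≤ (c * B ^ j * E) ^ 2 * B ^ 2 :=
            mul_le_mul a1 a2 (sq_nonneg' _ _ _) (sq_nonneg _)
        _ ≤ (c * B ^ n * E) ^ 2 * B ^ 2 :=
            mul_le_mul_of_nonneg_right (pow_le_pow_left₀ (by positivity) a3 2) (sq_nonneg _)
        _ = (c * B ^ (n + 1) * E) ^ 2 := by ring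
    refine (Finset.sum_le_sum h2).trans (le_of_eq ?_)
    rw [Finset.sum_const, Finset.card_range]
    simp only [nsmul_eq_mul]
    push_cast
    ring
  refine (Finset.sum_le_sum h1).trans (le_of_eq ?_)
  rw [Finset.sum_const, Finset.card_univ, Fintype.card_fin]
  simp only [nsmul_eq_mul]
  push_cast
  ring

end FEpt

theorem pEpt : S_Ept := by
  intro n
  induction n with
  | zero =>
    refine ⟨1, le_rfl, fun φ _ x B _ _ i hi => ?_⟩
    have : i = 0 := by omega
    subst this
    rw [sq_zero']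
    simp
  | succ n ih =>
    obtain ⟨c, hc, h⟩ := ih
    have hn : (0 : ℝ) ≤ n := Nat.cast_nonneg n
    have hK : (1 : ℝ) ≤ 5 * 4 ^ n * (n + 1) := by
      have h4 : (1 : ℝ) ≤ 4 ^ n := one_le_pow₀ (by norm_num)
      nlinarith
    set K : ℝ := 5 * 4 ^ n * (n + 1) with hKd
    refine ⟨K * c, one_le_mul_of_one_le_of_one_le hK hc, fun φ hφ x B hB hb i hi => ?_⟩
    have hB0 : 0 ≤ B := by linarith
    have ih' := h φ hφ x B hB fun i h1 h2 => hb i h1 (by omega)
    by_cases hin : i ≤ n
    · refine (ih' i hin).trans (pow_le_pow_left₀ (by positivity) ?_ 2)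
      refine mul_le_mul_of_nonneg_right ?_ (norm_nonneg _)
      refine mul_le_mul_of_nonneg_right ?_ (by positivity)
      nlinarith
    · have hi' : i = n + 1 := by omega
      subst hi'
      refine (FEpt.step hc hφ hB hb ih').trans ?_
      rw [← hKd]
      set R := c * B ^ (n + 1) * ‖Complex.exp (φ x)‖ with hR
      have e : K * c * B ^ (n + 1) * ‖Complex.exp (φ x)‖ = K * R := by rw [hR]; ring
      rw [e]
      have hR2 : 0 ≤ R ^ 2 := by positivity
      have hKK : K ≤ K ^ 2 := by nlinarith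
      calc K * R ^ 2 ≤ K ^ 2 * R ^ 2 := mul_le_mul_of_nonneg_right hKK hR2
        _ = (K * R) ^ 2 := by ring

end Pool.Agent.CR5
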