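import Pool.Agent.Lib.CR5.SpecF

/-!
# CR5, block F: exponentials with `AO` bounds
-/

open MeasureTheory Set Filter Topology
open scoped ENNReal ComplexConjugate

noncomputable section

namespace Pool.Agent.CR5

namespace FExp0

theorem smTk {φ f : E5 → ℂ} (hφ : Sm φ) (hf : Sm f) (k : Fin 5) : Sm (Tk φ k f) :=
  (hf.pd k).add ((hφ.pd k).mul hf)

theorem tq_cont {φ : E5 → ℂ} (hφ : Sm φ) : ∀ (n : ℕ) {f : E5 → ℂ}, Sm f → Continuous (tq φ n f)
  | 0, f, hf => by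
    have : tq φ 0 f = fun x => ‖f x‖ ^ 2 := rfl
    rw [this]; exact (hf.cont.norm).pow 2
  | n + 1, f, hf => by
    have : tq φ (n + 1) f = fun x => ∑ k : Fin 5, tq φ n (Tk φ k f) x := rfl
    rw [this]
    exact continuous_finset_sum _ fun k _ => tq_cont hφ n (smTk hφ hf k)

theorem tq_nonneg (φ : E5 → ℂ) : ∀ (n : ℕ) (f : E5 → ℂ) (x : E5), 0 ≤ tq φ n f x
  | 0, f, x => by
    show 0 ≤ ‖f x‖ ^ 2
    positivity
  | n + 1, f, x => by
    show 0 ≤ ∑ k : Fin 5, tq φ n (Tk φ k f) x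
    exact Finset.sum_nonneg fun k _ => tq_nonneg φ n _ x

theorem arith {w I T M K A : ℝ} {n m : ℕ} (hw : 0 ≤ w) (hI : 0 ≤ I) (hM : 0 ≤ M) (hK : 1 ≤ K)
    (hA : 0 ≤ A) (hn : n ≤ m) (h1 : I ≤ M ^ 2 * T) (h2 : w ^ 2 * T ≤ (5 * K ^ 2) ^ n * A ^ 2) :
    w * Real.sqrt I ≤ M * (5 * K) ^ m * A := by
  have hp : (5 * K ^ 2) ^ n ≤ ((5 * K) ^ m) ^ 2 := by
    have a1 : (5 * K ^ 2) ^ n ≤ ((5 * K) ^ 2) ^ n := by
      refine pow_le_pow_left₀ (by positivity) ?_ n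
      nlinarith [sq_nonneg K]
    have a2 : ((5 * K) ^ 2) ^ n ≤ ((5 * K) ^ 2) ^ m := by
      refine pow_le_pow_right₀ ?_ hn
      nlinarith
    calc (5 * K ^ 2) ^ n ≤ ((5 * K) ^ 2) ^ m := a1.trans a2
      _ = ((5 * K) ^ m) ^ 2 := by rw [← pow_mul, ← pow_mul, mul_comm 2 m]
  have e : (w * Real.sqrt I) ^ 2 = w ^ 2 * I := by rw [mul_pow, Real.sq_sqrt hI]
  have hR : 0 ≤ M * (5 * K) ^ m * A := by positivity
  refine (pow_le_pow_iff_left₀ (by positivity) hR two_ne_zero).1 ?_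
  rw [e]
  calc w ^ 2 * I ≤ w ^ 2 * (M ^ 2 * T) := mul_le_mul_of_nonneg_left h1 (sq_nonneg _)
    _ = M ^ 2 * (w ^ 2 * T) := by ring
    _ ≤ M ^ 2 * ((5 * K ^ 2) ^ n * A ^ 2) := mul_le_mul_of_nonneg_left h2 (sq_nonneg _)
    _ ≤ M ^ 2 * (((5 * K) ^ m) ^ 2 * A ^ 2) :=
        mul_le_mul_of_nonneg_left (mul_le_mul_of_nonneg_right hp (sq_nonneg _)) (sq_nonneg _)
    _ = (M * (5 * K) ^ m * A) ^ 2 := by ring

end FExp0

theorem pExp0 (h1 : S_Tqe) (h2 : S_Tqb) : S_Exp0 := by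
  intro m
  obtain ⟨C, hC, h2C⟩ := h2 m
  have h5 : (1 : ℝ) ≤ (5 * C) ^ m := one_le_pow₀ (by linarith)
  have hm : (1 : ℝ) ≤ (m : ℝ) + 1 := by
    have := Nat.cast_nonneg (α := ℝ) m
    linarith
  refine ⟨((m : ℝ) + 1) * (5 * C) ^ m, one_le_mul_of_one_le_of_one_le hm h5,
    fun h hAd G hGo hG P A M φ f hφ hf hP hA hM aφ af hexp => ?_⟩
  have hb := bdd_of_ball hG
  have key : ∀ n ∈ Finset.range (m + 1),
      h n * Real.sqrt (∫ x in G, sq n (fun x => Complex.exp (φ x) * f x) x)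
        ≤ M * (5 * (C * (1 + P))) ^ m * A := by
    intro n hn
    have hn' : n ≤ m := by have := Finset.mem_range.1 hn; omega
    have hK : 1 ≤ C * (1 + P) := one_le_mul_of_one_le_of_one_le hC (by linarith)
    refine FExp0.arith (T := ∫ x in G, tq φ n f x) (hAd.pos n).le (setInt_sq_nonneg n _ G) hM hK hA
      hn' ?_ (h2C h hAd G hGo hG P A φ f hφ hf hP hA aφ af n hn')
    rw [← integral_const_mul]
    refine setIntegral_mono_on (intOn_sq n (hφ.cexp.mul hf) hb)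
      ((intOn_cont (FExp0.tq_cont hφ n hf) hb).const_mul _) hGo.measurableSet fun x hx => ?_
    rw [h1 φ hφ n f hf x]
    refine mul_le_mul_of_nonneg_right ?_ (FExp0.tq_nonneg φ n f x)
    exact pow_le_pow_left₀ (norm_nonneg _) (hexp x hx) 2
  refine (Finset.sum_le_sum key).trans (le_of_eq ?_)
  rw [Finset.sum_const, Finset.card_range]
  simp only [nsmul_eq_mul]
  push_cast
  rw [show 5 * (C * (1 + P)) = (5 * C) * (1 + P) by ring, mul_pow]
  ring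

end Pool.Agent.CR5
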