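import Pool.Agent.Lib.CR5.SpecF

/-!
# CR5, block F: the exponential estimate (helper84)
-/

open MeasureTheory Set Filter Topology
open scoped ENNReal ComplexConjugate

noncomputable section

namespace Pool.Agent.CR5

theorem pExpo (h1 : S_Aof) (h2 : S_Exp0) : S_Expo := by
  intro m
  obtain ⟨C₁, p₁, hC₁, hA⟩ := h1
  obtain ⟨C₂, hC₂, hE⟩ := h2 m
  refine ⟨C₁ * C₂, p₁ * (m + 1) + 1, by nlinarith, ?_⟩
  intro h hh s hs hs1 G Ω' Ω hG hGΩ' hΩ' hΩ hΩ'Ω hInn hball g f Δ M hg hf hM hexp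
  have hGΩ : G ⊆ Ω := hGΩ'.trans hΩ'Ω
  have hInnG : Inn G Ω s := fun x hx => hInn x (hGΩ' hx)
  have hφ : Sm (fun x => Complex.I * (Δ : ℂ) * g x) := (Sm.const _).mul hg
  have hN : NN h m Ω (fun x => Complex.I * (Δ : ℂ) * g x) = |Δ| * NN h m Ω g := by
    rw [NN_const_mul h m Ω hg (Complex.I * (Δ : ℂ))]
    congr 1
    rw [norm_mul, Complex.norm_I, one_mul, Complex.norm_real, Real.norm_eq_abs]
  have hNg : 0 ≤ NN h m Ω g := NN_nonneg hh.pos m Ω g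
  have hNf : 0 ≤ NN h m Ω f := NN_nonneg hh.pos m Ω f
  have hK1 : 1 ≤ C₁ / s := by
    rw [le_div_iff₀ hs]
    linarith
  obtain ⟨K, hK⟩ : ∃ K, K = (C₁ / s) ^ p₁ := ⟨_, rfl⟩
  have hK' : 1 ≤ K := by
    rw [hK]
    exact one_le_pow₀ hK1
  have a1 := hA m h hh s hs hs1 G Ω hGΩ hInnG hball _ hφ
  have a2 := hA m h hh s hs hs1 G Ω hGΩ hInnG hball f hf
  rw [hN, ← hK] at a1
  rw [← hK] at a2
  have e1 := hE h hh G hG (hGΩ.trans hball) (K * (|Δ| * NN h m Ω g)) (K * NN h m Ω f) M _ f hφ hf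
    (by positivity) (by positivity) hM a1 a2 hexp
  refine e1.trans ?_
  have hΔ : 0 ≤ |Δ| := abs_nonneg Δ
  have e2 : 1 + K * (|Δ| * NN h m Ω g) ≤ K * (1 + |Δ|) * (1 + NN h m Ω g) := by
    have : 0 ≤ |Δ| * NN h m Ω g := mul_nonneg hΔ hNg
    nlinarith [mul_nonneg (by linarith : (0 : ℝ) ≤ K) hΔ, mul_nonneg (by linarith : (0 : ℝ) ≤ K) hNg]
  have e3 : (1 + K * (|Δ| * NN h m Ω g)) ^ m ≤
      K ^ m * (1 + |Δ|) ^ m * (1 + NN h m Ω g) ^ m := by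
    rw [← mul_pow, ← mul_pow]
    exact pow_le_pow_left₀ (by positivity) e2 m
  have e4 : C₂ * K ^ (m + 1) ≤ (C₁ * C₂ / s) ^ (p₁ * (m + 1) + 1) := by
    rw [pow_succ (C₁ * C₂ / s), hK, ← pow_mul, mul_comm C₂]
    have b1 : C₁ / s ≤ C₁ * C₂ / s := by
      refine div_le_div_of_nonneg_right ?_ hs.le
      nlinarith
    have b2 : C₂ ≤ C₁ * C₂ / s := by
      rw [le_div_iff₀ hs]
      have b3 : C₂ * s ≤ C₂ * 1 := mul_le_mul_of_nonneg_left hs1 (by linarith)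
      nlinarith
    exact mul_le_mul (pow_le_pow_left₀ (by linarith) b1 _) b2 (by linarith)
      (pow_nonneg (by linarith) _)
  have e5 : C₂ * (1 + K * (|Δ| * NN h m Ω g)) ^ m * M * (K * NN h m Ω f) ≤
      C₂ * (K ^ m * (1 + |Δ|) ^ m * (1 + NN h m Ω g) ^ m) * M * (K * NN h m Ω f) := by
    have c1 : 0 ≤ M * (K * NN h m Ω f) := by positivity
    have c2 := mul_le_mul_of_nonneg_left e3 (by linarith : (0 : ℝ) ≤ C₂)
    have c3 := mul_le_mul_of_nonneg_right c2 c1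
    calc _ = C₂ * (1 + K * (|Δ| * NN h m Ω g)) ^ m * (M * (K * NN h m Ω f)) := by ring
      _ ≤ _ := c3
      _ = _ := by ring
  refine e5.trans ?_
  have c1 : 0 ≤ (1 + |Δ|) ^ m * (1 + NN h m Ω g) ^ m * M * NN h m Ω f := by positivity
  calc C₂ * (K ^ m * (1 + |Δ|) ^ m * (1 + NN h m Ω g) ^ m) * M * (K * NN h m Ω f)
      = C₂ * K ^ (m + 1) * ((1 + |Δ|) ^ m * (1 + NN h m Ω g) ^ m * M * NN h m Ω f) := by ring
    _ ≤ (C₁ * C₂ / s) ^ (p₁ * (m + 1) + 1) *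
        ((1 + |Δ|) ^ m * (1 + NN h m Ω g) ^ m * M * NN h m Ω f) :=
      mul_le_mul_of_nonneg_right e4 c1
    _ = _ := by ring

end Pool.Agent.CR5
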