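import Pool.Agent.Lib.CR5.F.Sq

/-!
# CR5, block F: `sq` and `iteratedFDeriv`
-/

open MeasureTheory Set Filter Topology
open scoped ENNReal ComplexConjugate

noncomputable section

namespace Pool.Agent.CR5

theorem Sm.fderiv_sm {f : E5 → ℂ} (hf : Sm f) : ContDiff ℝ (⊤ : ℕ∞) (fderiv ℝ f) :=
  ContDiff.fderiv_right hf (by simp)

theorem pd_eq_comp (f : E5 → ℂ) (k : Fin 5) :
    pd k f = (ContinuousLinearMap.apply ℝ ℂ (e5 k)) ∘ (fderiv ℝ f) := by
  funext x; rfl

theorem ifd_pd {f : E5 → ℂ} (hf : Sm f) (k : Fin 5) (n : ℕ) (x : E5) (v : Fin n → E5) :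
    iteratedFDeriv ℝ n (pd k f) x v = iteratedFDeriv ℝ n (fderiv ℝ f) x v (e5 k) := by
  rw [pd_eq_comp, ContinuousLinearMap.iteratedFDeriv_comp_left (n := (⊤ : ℕ∞))
    (ContinuousLinearMap.apply ℝ ℂ (e5 k)) (hf.fderiv_sm.contDiffAt)
    (by exact_mod_cast le_top)]
  rfl

theorem eq_sum_e5 (v : E5) : v = ∑ k : Fin 5, v k • e5 k := by
  have h := (EuclideanSpace.basisFun (Fin 5) ℝ).sum_repr v
  simp only [EuclideanSpace.basisFun_repr, EuclideanSpace.basisFun_apply] at h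
  exact h.symm

/-- The iterated derivative is bounded by `sqrt (sq n f x)`. -/
theorem ifd_apply_le : ∀ (n : ℕ) {f : E5 → ℂ}, Sm f → ∀ (x : E5) (v : Fin n → E5),
    ‖iteratedFDeriv ℝ n f x v‖ ≤ Real.sqrt (sq n f x) * ∏ i, ‖v i‖
  | 0, f, hf, x, v => by
    rw [iteratedFDeriv_zero_apply, sq_zero', Real.sqrt_sq (norm_nonneg _)]
    simp
  | n + 1, f, hf, x, v => by
    rw [iteratedFDeriv_succ_apply_right]
    have e1 : (iteratedFDeriv ℝ n (fun y => fderiv ℝ f y) x (Fin.init v)) (v (Fin.last n))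
        = ∑ k : Fin 5, (v (Fin.last n)) k • iteratedFDeriv ℝ n (pd k f) x (Fin.init v) := by
      conv_lhs => rw [eq_sum_e5 (v (Fin.last n))]
      rw [map_sum]
      refine Finset.sum_congr rfl fun k _ => ?_
      rw [map_smul, ifd_pd hf]
    rw [e1]
    set w := v (Fin.last n) with hw
    set P := ∏ i : Fin n, ‖Fin.init v i‖ with hP
    have hP0 : 0 ≤ P := Finset.prod_nonneg fun i _ => norm_nonneg _
    have e2 : ∏ i, ‖v i‖ = P * ‖w‖ := by
      rw [Fin.prod_univ_castSucc]; rfl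
    calc ‖∑ k : Fin 5, w k • iteratedFDeriv ℝ n (pd k f) x (Fin.init v)‖
        ≤ ∑ k : Fin 5, |w k| * (Real.sqrt (sq n (pd k f) x) * P) := by
          refine (norm_sum_le _ _).trans (Finset.sum_le_sum fun k _ => ?_)
          rw [norm_smul, Real.norm_eq_abs]
          exact mul_le_mul_of_nonneg_left (ifd_apply_le n (hf.pd k) x _) (abs_nonneg _)
      _ = (∑ k : Fin 5, |w k| * Real.sqrt (sq n (pd k f) x)) * P := by
          rw [Finset.sum_mul]; exact Finset.sum_congr rfl fun k _ => by ring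
      _ ≤ (Real.sqrt (∑ k : Fin 5, |w k| ^ 2)
            * Real.sqrt (∑ k : Fin 5, Real.sqrt (sq n (pd k f) x) ^ 2)) * P :=
          mul_le_mul_of_nonneg_right (Real.sum_mul_le_sqrt_mul_sqrt _ _ _) hP0
      _ = Real.sqrt (sq (n + 1) f x) * ∏ i, ‖v i‖ := by
          have a1 : Real.sqrt (∑ k : Fin 5, |w k| ^ 2) = ‖w‖ := by
            rw [EuclideanSpace.norm_eq]; simp [Real.norm_eq_abs]
          have a2 : ∑ k : Fin 5, Real.sqrt (sq n (pd k f) x) ^ 2 = sq (n + 1) f x := by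
            rw [sq_succ]
            exact Finset.sum_congr rfl fun k _ => Real.sq_sqrt (sq_nonneg' n _ x)
          rw [a1, a2, e2]; ring

theorem norm_ifd_le (n : ℕ) {f : E5 → ℂ} (hf : Sm f) (x : E5) :
    ‖iteratedFDeriv ℝ n f x‖ ≤ Real.sqrt (sq n f x) :=
  ContinuousMultilinearMap.opNorm_le_bound (Real.sqrt_nonneg _) (ifd_apply_le n hf x)

theorem norm_e5 (k : Fin 5) : ‖e5 k‖ = 1 := by simp [e5]

/-- The converse inequality. -/
theorem sq_le_ifd : ∀ (n : ℕ) {f : E5 → ℂ}, Sm f → ∀ (x : E5),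
    sq n f x ≤ 5 ^ n * ‖iteratedFDeriv ℝ n f x‖ ^ 2
  | 0, f, hf, x => by
    rw [sq_zero', pow_zero, one_mul, norm_iteratedFDeriv_zero]
  | n + 1, f, hf, x => by
    rw [sq_succ]
    have h1 : ∀ k : Fin 5, sq n (pd k f) x ≤ 5 ^ n * ‖iteratedFDeriv ℝ (n + 1) f x‖ ^ 2 := by
      intro k
      refine (sq_le_ifd n (hf.pd k) x).trans ?_
      have h2 : ‖iteratedFDeriv ℝ n (pd k f) x‖ ≤ ‖iteratedFDeriv ℝ (n + 1) f x‖ := by
        rw [← norm_iteratedFDeriv_fderiv]
        refine ContinuousMultilinearMap.opNorm_le_bound (norm_nonneg _) fun v => ?_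
        rw [ifd_pd hf]
        refine (ContinuousLinearMap.le_opNorm _ _).trans ?_
        rw [norm_e5, mul_one]
        exact ContinuousMultilinearMap.le_opNorm _ _
      gcongr
    refine (Finset.sum_le_sum fun k _ => h1 k).trans (le_of_eq ?_)
    simp only [Finset.sum_const, Finset.card_univ, Fintype.card_fin, nsmul_eq_mul]
    push_cast
    ring

end Pool.Agent.CR5
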