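import Pool.Agent.Lib.CR5.SpecF

/-!
# CR5, block F, Inv: pointwise bounds of a reciprocal
-/

open MeasureTheory Set Filter Topology
open scoped ENNReal ComplexConjugate

noncomputable section

namespace Pool.Agent.CR5

namespace FInv

theorem sm_inv {g : E5 → ℂ} (hg : Sm g) (h0 : ∀ y, g y ≠ 0) : Sm fun y => 1 / g y := by
  have h : Sm fun y => (g y)⁻¹ := ContDiff.inv hg h0
  simpa only [one_div] using h

theorem pd_inv {g : E5 → ℂ} (hg : Sm g) (h0 : ∀ y, g y ≠ 0) (k : Fin 5) :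
    pd k (fun y => 1 / g y) = fun y => -((1 / g y) * ((1 / g y) * pd k g y)) := by
  funext y
  have h1 := pd_mul (sm_inv hg h0) hg k y
  have h2 : (fun y => 1 / g y * g y) = fun _ => (1 : ℂ) := by
    funext z
    rw [one_div, inv_mul_cancel₀ (h0 z)]
  rw [h2, pd_const] at h1
  have h3 := h0 y
  field_simp at h1 ⊢
  linear_combination -h1

/-- one step -/
theorem step (n : ℕ) {g : E5 → ℂ} (hg : Sm g) (h0 : ∀ y, g y ≠ 0) (x : E5) {B C : ℝ} (hB : 1 ≤ B)
    (hC : 1 ≤ C) (hgb : ∀ i ≤ n + 1, sq i g x ≤ (B * ‖g x‖) ^ 2)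
    (hu : ∀ i ≤ n, sq i (fun y => 1 / g y) x ≤ (C * B ^ i / ‖g x‖) ^ 2) :
    sq (n + 1) (fun y => 1 / g y) x ≤
      5 * (16 ^ n * ((n : ℝ) + 1) ^ 2) * C ^ 4 * (B ^ (n + 1) / ‖g x‖) ^ 2 := by
  have hG : 0 < ‖g x‖ := norm_pos_iff.2 (h0 x)
  have hsu := sm_inv hg h0
  rw [sq_succ]
  have key : ∀ k : Fin 5, sq n (pd k fun y => 1 / g y) x ≤
      (16 ^ n * ((n : ℝ) + 1) ^ 2) * C ^ 4 * (B ^ (n + 1) / ‖g x‖) ^ 2 := by
    intro k
    rw [pd_inv hg h0, sq_neg n (hsu.mul (hsu.mul (hg.pd k)))]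
    refine (sq_mul_le n hsu (hsu.mul (hg.pd k)) x).trans ?_
    have h1 : ∀ j ∈ Finset.range (n + 1), sq j (fun y => 1 / g y) x *
        sq (n - j) (fun y => 1 / g y * pd k g y) x ≤
        4 ^ n * ((n : ℝ) + 1) * C ^ 4 * (B ^ (n + 1) / ‖g x‖) ^ 2 := by
      intro j hj
      have hj' : j ≤ n := Nat.lt_succ_iff.1 (Finset.mem_range.1 hj)
      have h2 : sq (n - j) (fun y => 1 / g y * pd k g y) x ≤
          4 ^ n * ((n : ℝ) + 1) * (C * B ^ (n - j + 1)) ^ 2 := by
        refine (sq_mul_le (n - j) hsu (hg.pd k) x).trans ?_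
        have h3 : ∀ l ∈ Finset.range (n - j + 1), sq l (fun y => 1 / g y) x *
            sq (n - j - l) (pd k g) x ≤ (C * B ^ (n - j + 1)) ^ 2 := by
          intro l hl
          have hl' : l ≤ n - j := Nat.lt_succ_iff.1 (Finset.mem_range.1 hl)
          have e1 := hu l (by omega)
          have e2 := (sq_pd_le (n - j - l) g k x).trans (hgb (n - j - l + 1) (by omega))
          calc sq l (fun y => 1 / g y) x * sq (n - j - l) (pd k g) x
              ≤ (C * B ^ l / ‖g x‖) ^ 2 * (B * ‖g x‖) ^ 2 :=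
                mul_le_mul e1 e2 (sq_nonneg' _ _ _) (by positivity)
            _ = (C * B ^ (l + 1)) ^ 2 := by
                field_simp
                ring
            _ ≤ (C * B ^ (n - j + 1)) ^ 2 := by
                apply pow_le_pow_left₀ (by positivity)
                apply mul_le_mul_of_nonneg_left _ (by positivity)
                exact pow_le_pow_right₀ hB (by omega)
        have h4 := Finset.sum_le_card_nsmul _ _ _ h3
        rw [Finset.card_range, nsmul_eq_mul] at h4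
        have h5 : ((n - j + 1 : ℕ) : ℝ) ≤ (n : ℝ) + 1 := by
          have : n - j + 1 ≤ n + 1 := by omega
          exact_mod_cast this
        have h6 : (4 : ℝ) ^ (n - j) ≤ 4 ^ n := pow_le_pow_right₀ (by norm_num) (by omega)
        calc (4 : ℝ) ^ (n - j) * ∑ i ∈ Finset.range (n - j + 1), sq i (fun y => 1 / g y) x *
              sq (n - j - i) (pd k g) x
            ≤ 4 ^ n * (((n : ℝ) + 1) * (C * B ^ (n - j + 1)) ^ 2) := by
              apply mul_le_mul h6 (h4.trans _) (Finset.sum_nonneg fun i _ =>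
                mul_nonneg (sq_nonneg' _ _ _) (sq_nonneg' _ _ _)) (by positivity)
              exact mul_le_mul_of_nonneg_right h5 (by positivity)
          _ = 4 ^ n * ((n : ℝ) + 1) * (C * B ^ (n - j + 1)) ^ 2 := by ring
      calc sq j (fun y => 1 / g y) x * sq (n - j) (fun y => 1 / g y * pd k g y) x
          ≤ (C * B ^ j / ‖g x‖) ^ 2 * (4 ^ n * ((n : ℝ) + 1) * (C * B ^ (n - j + 1)) ^ 2) :=
            mul_le_mul (hu j hj') h2 (sq_nonneg' _ _ _) (by positivity)
        _ = 4 ^ n * ((n : ℝ) + 1) * C ^ 4 * (B ^ j * B ^ (n - j + 1) / ‖g x‖) ^ 2 := by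
            field_simp
        _ = 4 ^ n * ((n : ℝ) + 1) * C ^ 4 * (B ^ (n + 1) / ‖g x‖) ^ 2 := by
            rw [← pow_add, show j + (n - j + 1) = n + 1 by omega]
    have h4 := Finset.sum_le_card_nsmul _ _ _ h1
    rw [Finset.card_range, nsmul_eq_mul] at h4
    push_cast at h4
    calc (4 : ℝ) ^ n * ∑ i ∈ Finset.range (n + 1), sq i (fun y => 1 / g y) x *
          sq (n - i) (fun y => 1 / g y * pd k g y) x
        ≤ 4 ^ n * (((n : ℝ) + 1) * (4 ^ n * ((n : ℝ) + 1) * C ^ 4 * (B ^ (n + 1) / ‖g x‖) ^ 2)) :=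
          mul_le_mul_of_nonneg_left h4 (by positivity)
      _ = (16 ^ n * ((n : ℝ) + 1) ^ 2) * C ^ 4 * (B ^ (n + 1) / ‖g x‖) ^ 2 := by
          have : (16 : ℝ) ^ n = 4 ^ n * 4 ^ n := by
            rw [← mul_pow]
            norm_num
          rw [this]
          ring
  refine (Finset.sum_le_sum fun k _ => key k).trans (le_of_eq ?_)
  rw [Finset.sum_const, Finset.card_univ, Fintype.card_fin, nsmul_eq_mul]
  push_cast
  ring

end FInv

theorem pInv : S_Inv := by
  intro n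
  induction n with
  | zero =>
    refine ⟨1, le_refl 1, fun g _ h0 x B _ _ i hi => ?_⟩
    have hi0 : i = 0 := by omega
    subst hi0
    rw [sq_zero', norm_div, norm_one, pow_zero, one_mul]
  | succ n ih =>
    obtain ⟨C, hC, ih⟩ := ih
    have hC' : 1 ≤ 5 * (16 ^ n * ((n : ℝ) + 1) ^ 2) * C ^ 4 := by
      have h1 : (1 : ℝ) ≤ 16 ^ n := one_le_pow₀ (by norm_num)
      have h2 : (1 : ℝ) ≤ ((n : ℝ) + 1) ^ 2 := one_le_pow₀ (by
        have : (0 : ℝ) ≤ n := Nat.cast_nonneg n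
        linarith)
      have h3 : (1 : ℝ) ≤ C ^ 4 := one_le_pow₀ hC
      have h4 : (1 : ℝ) ≤ 16 ^ n * ((n : ℝ) + 1) ^ 2 := one_le_mul_of_one_le_of_one_le h1 h2
      nlinarith
    have hCC : C ≤ 5 * (16 ^ n * ((n : ℝ) + 1) ^ 2) * C ^ 4 := by
      have h1 : (1 : ℝ) ≤ 16 ^ n := one_le_pow₀ (by norm_num)
      have h2 : (1 : ℝ) ≤ ((n : ℝ) + 1) ^ 2 := one_le_pow₀ (by
        have : (0 : ℝ) ≤ n := Nat.cast_nonneg n
        linarith)
      have h3 : C ≤ C ^ 4 := le_self_pow₀ hC (by norm_num)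
      have h4 : (1 : ℝ) ≤ 16 ^ n * ((n : ℝ) + 1) ^ 2 := one_le_mul_of_one_le_of_one_le h1 h2
      have h5 : 1 ≤ 5 * (16 ^ n * ((n : ℝ) + 1) ^ 2) := by linarith
      calc C ≤ C ^ 4 := h3
        _ = 1 * C ^ 4 := (one_mul _).symm
        _ ≤ 5 * (16 ^ n * ((n : ℝ) + 1) ^ 2) * C ^ 4 := mul_le_mul_of_nonneg_right h5 (by positivity)
    refine ⟨5 * (16 ^ n * ((n : ℝ) + 1) ^ 2) * C ^ 4, hC', fun g hg h0 x B hB hgb i hi => ?_⟩
    have h1 := ih g hg h0 x B hB (fun i hi => hgb i (by omega))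
    have hG : 0 < ‖g x‖ := norm_pos_iff.2 (h0 x)
    rcases Nat.lt_or_eq_of_le hi with h2 | h2
    · refine (h1 i (by omega)).trans ?_
      apply pow_le_pow_left₀ (by positivity)
      apply div_le_div_of_nonneg_right _ hG.le
      exact mul_le_mul_of_nonneg_right hCC (by positivity)
    · subst h2
      refine (FInv.step n hg h0 x hB hC hgb h1).trans ?_
      rw [mul_div_assoc, mul_pow]
      apply mul_le_mul_of_nonneg_right _ (by positivity)
      exact le_self_pow₀ hC' (by norm_num)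

end Pool.Agent.CR5
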