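import Pool.Agent.Lib.CR5.SpecF

/-!
# CR5, block F: product with a function whose derivatives are bounded
-/

open MeasureTheory Set Filter Topology
open scoped ENNReal ComplexConjugate

noncomputable section

namespace Pool.Agent.CR5

namespace FPb

theorem sqrt_sum_le (s : Finset ℕ) (F : ℕ → ℝ) (hF : ∀ i, 0 ≤ F i) :
    Real.sqrt (∑ i ∈ s, F i) ≤ ∑ i ∈ s, Real.sqrt (F i) := by
  classical
  induction s using Finset.induction_on with
  | empty => simp
  | insert i s hi ih =>
    rw [Finset.sum_insert hi, Finset.sum_insert hi]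
    have h0 : 0 ≤ ∑ i ∈ s, F i := Finset.sum_nonneg fun i _ => hF i
    have h1 : Real.sqrt (F i + ∑ i ∈ s, F i) ≤ Real.sqrt (F i) + Real.sqrt (∑ i ∈ s, F i) := by
      apply Real.sqrt_le_iff.2
      refine ⟨by positivity, ?_⟩
      nlinarith [Real.sq_sqrt (hF i), Real.sq_sqrt h0,
        mul_nonneg (Real.sqrt_nonneg (F i)) (Real.sqrt_nonneg (∑ i ∈ s, F i))]
    linarith

theorem anti_le {h : ℕ → ℝ} (ha : ∀ i, h (i + 1) ≤ h i) (i : ℕ) : ∀ n, h (i + n) ≤ h i
  | 0 => le_rfl
  | n + 1 => (ha (i + n)).trans (anti_le ha i n)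

end FPb

theorem pPb : S_Pb := by
  intro m
  have hm : (1 : ℝ) ≤ (m : ℝ) + 1 := by
    have := Nat.cast_nonneg (α := ℝ) m
    linarith
  refine ⟨((m : ℝ) + 1) * 2 ^ m,
    one_le_mul_of_one_le_of_one_le hm (one_le_pow₀ (by norm_num)), ?_⟩
  intro h hAd Ω hΩ hΩ1 f g M hf hg hgM hM
  have hb := bdd_of_ball hΩ1
  have key : ∀ n ∈ Finset.range (m + 1),
      h n * Real.sqrt (∫ x in Ω, sq n (fun x => g x * f x) x) ≤ 2 ^ m * M * NN h m Ω f := by
    intro n hn
    have hn' : n ≤ m := by have := Finset.mem_range.1 hn; omega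
    have i1 : ∫ x in Ω, sq n (fun x => g x * f x) x
        ≤ ∑ j ∈ Finset.range (n + 1), (2 ^ n * M) ^ 2 * ∫ x in Ω, sq (n - j) f x := by
      have e : ∑ j ∈ Finset.range (n + 1), (2 ^ n * M) ^ 2 * ∫ x in Ω, sq (n - j) f x
          = ∫ x in Ω, ∑ j ∈ Finset.range (n + 1), (2 ^ n * M) ^ 2 * sq (n - j) f x := by
        rw [integral_finset_sum _ fun j _ => (intOn_sq (n - j) hf hb).const_mul _]
        exact Finset.sum_congr rfl fun j _ => (integral_const_mul _ _).symm
      rw [e]
      refine setIntegral_mono_on (intOn_sq n (hg.mul hf) hb)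
        (integrable_finset_sum _ fun j _ => (intOn_sq (n - j) hf hb).const_mul _)
        hΩ.measurableSet fun x hx => ?_
      refine (sq_mul_le n hg hf x).trans ?_
      rw [Finset.mul_sum]
      refine Finset.sum_le_sum fun j hj => ?_
      have hj' : j ≤ m := by have := Finset.mem_range.1 hj; omega
      have a1 := mul_le_mul_of_nonneg_right (hgM j hj' x hx) (sq_nonneg' (n - j) f x)
      have a2 : (0 : ℝ) ≤ 4 ^ n := by positivity
      calc (4 : ℝ) ^ n * (sq j g x * sq (n - j) f x) ≤ 4 ^ n * (M ^ 2 * sq (n - j) f x) :=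
            mul_le_mul_of_nonneg_left a1 a2
        _ = (2 ^ n * M) ^ 2 * sq (n - j) f x := by
            rw [mul_pow, ← pow_mul, mul_comm n 2, pow_mul]
            norm_num
            ring
    have i2 : Real.sqrt (∫ x in Ω, sq n (fun x => g x * f x) x)
        ≤ ∑ j ∈ Finset.range (n + 1), (2 ^ n * M) * Real.sqrt (∫ x in Ω, sq (n - j) f x) := by
      refine (Real.sqrt_le_sqrt i1).trans ?_
      refine (FPb.sqrt_sum_le _ (fun j => (2 ^ n * M) ^ 2 * ∫ x in Ω, sq (n - j) f x)
        fun j => mul_nonneg (sq_nonneg _) (setInt_sq_nonneg (n - j) f Ω)).trans (le_of_eq ?_)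
      refine Finset.sum_congr rfl fun j _ => ?_
      rw [Real.sqrt_mul (sq_nonneg _), Real.sqrt_sq (by positivity)]
    have i3 : ∑ j ∈ Finset.range (n + 1), h n * ((2 ^ n * M) *
        Real.sqrt (∫ x in Ω, sq (n - j) f x))
        ≤ ∑ j ∈ Finset.range (n + 1), (2 ^ m * M) * (h (n - j) *
          Real.sqrt (∫ x in Ω, sq (n - j) f x)) := by
      refine Finset.sum_le_sum fun j hj => ?_
      have hj' : j ≤ n := by have := Finset.mem_range.1 hj; omega
      have a1 : h n ≤ h (n - j) := by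
        have := FPb.anti_le hAd.anti (n - j) j
        rwa [Nat.sub_add_cancel hj'] at this
      have a2 : (2 : ℝ) ^ n ≤ 2 ^ m := pow_le_pow_right₀ (by norm_num) hn'
      have a3 := Real.sqrt_nonneg (∫ x in Ω, sq (n - j) f x)
      calc h n * ((2 ^ n * M) * Real.sqrt (∫ x in Ω, sq (n - j) f x))
          ≤ h (n - j) * ((2 ^ m * M) * Real.sqrt (∫ x in Ω, sq (n - j) f x)) := by
            refine mul_le_mul a1 ?_ (by positivity) (hAd.pos _).le
            exact mul_le_mul_of_nonneg_right (mul_le_mul_of_nonneg_right a2 hM) a3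
        _ = _ := by ring
    have i4 : ∑ j ∈ Finset.range (n + 1), h (n - j) * Real.sqrt (∫ x in Ω, sq (n - j) f x)
        ≤ NN h m Ω f := by
      have e := Finset.sum_range_reflect
        (fun j => h j * Real.sqrt (∫ x in Ω, sq j f x)) (n + 1)
      simp only [Nat.add_sub_cancel] at e
      have e' : ∑ j ∈ Finset.range (n + 1), h (n - j) * Real.sqrt (∫ x in Ω, sq (n - j) f x)
          = ∑ j ∈ Finset.range (n + 1), h j * Real.sqrt (∫ x in Ω, sq j f x) := by
        rw [← e]
        try rfl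
      rw [e']
      unfold NN
      refine Finset.sum_le_sum_of_subset_of_nonneg
        (Finset.range_mono (by omega)) fun j _ _ => ?_
      exact mul_nonneg (hAd.pos j).le (Real.sqrt_nonneg _)
    calc h n * Real.sqrt (∫ x in Ω, sq n (fun x => g x * f x) x)
        ≤ h n * ∑ j ∈ Finset.range (n + 1), (2 ^ n * M) *
            Real.sqrt (∫ x in Ω, sq (n - j) f x) :=
          mul_le_mul_of_nonneg_left i2 (hAd.pos n).le
      _ = ∑ j ∈ Finset.range (n + 1), h n * ((2 ^ n * M) *
            Real.sqrt (∫ x in Ω, sq (n - j) f x)) := Finset.mul_sum _ _ _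
      _ ≤ ∑ j ∈ Finset.range (n + 1), (2 ^ m * M) * (h (n - j) *
            Real.sqrt (∫ x in Ω, sq (n - j) f x)) := i3
      _ = (2 ^ m * M) * ∑ j ∈ Finset.range (n + 1), h (n - j) *
            Real.sqrt (∫ x in Ω, sq (n - j) f x) := (Finset.mul_sum _ _ _).symm
      _ ≤ 2 ^ m * M * NN h m Ω f := mul_le_mul_of_nonneg_left i4 (by positivity)
  refine (Finset.sum_le_sum key).trans (le_of_eq ?_)
  rw [Finset.sum_const, Finset.card_range]
  simp only [nsmul_eq_mul]
  push_cast
  ring

end Pool.Agent.CR5
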