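import Pool.Agent.Lib.CR5.SpecF

/-!
# CR5, block F, Ptw: pointwise product
-/

set_option autoImplicit false

open MeasureTheory Set Filter Topology
open scoped ENNReal ComplexConjugate

noncomputable section

namespace Pool.Agent.CR5

theorem pPtw : S_Ptw := by
  intro n
  have hC : (1 : ℝ) ≤ 4 ^ n * (n + 1) := by
    have h1 : (1 : ℝ) ≤ 4 ^ n := one_le_pow₀ (by norm_num)
    have h2 : (0 : ℝ) ≤ n := Nat.cast_nonneg n
    nlinarith
  refine ⟨4 ^ n * (n + 1), hC, ?_⟩
  intro f g A B x hf hg hA hB i hi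
  have h1 : ∑ j ∈ Finset.range (i + 1), sq j f x * sq (i - j) g x ≤
      (i + 1) * (A ^ 2 * B ^ 2) := by
    have h2 : ∀ j ∈ Finset.range (i + 1), sq j f x * sq (i - j) g x ≤ A ^ 2 * B ^ 2 := by
      intro j hj
      have hj' : j ≤ n := by
        have := Finset.mem_range.1 hj
        omega
      exact mul_le_mul (hA j hj') (hB (i - j) (by omega)) (sq_nonneg' _ _ _) (sq_nonneg A)
    refine (Finset.sum_le_sum h2).trans (le_of_eq ?_)
    rw [Finset.sum_const, Finset.card_range, nsmul_eq_mul]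
    push_cast
    ring
  have hAB : (0 : ℝ) ≤ A ^ 2 * B ^ 2 := by positivity
  have hi' : (i : ℝ) ≤ n := by exact_mod_cast hi
  have hi0 : (0 : ℝ) ≤ i := Nat.cast_nonneg i
  have h3 : (4 : ℝ) ^ i ≤ 4 ^ n := pow_le_pow_right₀ (by norm_num) hi
  calc sq i (fun y => f y * g y) x
      ≤ 4 ^ i * ∑ j ∈ Finset.range (i + 1), sq j f x * sq (i - j) g x := sq_mul_le i hf hg x
    _ ≤ 4 ^ i * ((i + 1) * (A ^ 2 * B ^ 2)) := mul_le_mul_of_nonneg_left h1 (by positivity)
    _ ≤ 4 ^ n * ((n + 1) * (A ^ 2 * B ^ 2)) := by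
        apply mul_le_mul h3 _ (by positivity) (by positivity)
        exact mul_le_mul_of_nonneg_right (by linarith) hAB
    _ = (4 ^ n * (n + 1)) * (A ^ 2 * B ^ 2) := by ring
    _ ≤ (4 ^ n * (n + 1)) ^ 2 * (A ^ 2 * B ^ 2) := by
        apply mul_le_mul_of_nonneg_right _ hAB
        have := mul_le_mul_of_nonneg_left hC (by linarith : (0 : ℝ) ≤ 4 ^ n * (n + 1))
        rw [mul_one] at this
        rw [pow_two]
        exact this
    _ = (4 ^ n * (n + 1) * A * B) ^ 2 := by ring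

end Pool.Agent.CR5
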