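import Pool.Agent.Lib.CR5.SpecF

/-!
# CR5, block F, Sca: scaling
-/

set_option autoImplicit false

open MeasureTheory Set Filter Topology
open scoped ENNReal ComplexConjugate

noncomputable section

namespace Pool.Agent.CR5

namespace FSca

theorem sm_sca {f : E5 → ℂ} (hf : Sm f) (c : ℝ) (x0 : E5) : Sm fun y => f (c • (y - x0)) :=
  ContDiff.comp hf ((contDiff_id.sub contDiff_const).const_smul c)

theorem pd_sca {f : E5 → ℂ} (hf : Sm f) (c : ℝ) (x0 : E5) (k : Fin 5) (y : E5) :
    pd k (fun y => f (c • (y - x0))) y = (c : ℂ) * pd k f (c • (y - x0)) := by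
  have h1 : HasFDerivAt (fun y : E5 => c • (y - x0)) (c • ContinuousLinearMap.id ℝ E5) y :=
    ((hasFDerivAt_id y).sub_const x0).const_smul c
  have h2 := (hf.diffAt (c • (y - x0))).hasFDerivAt.comp y h1
  have h3 : fderiv ℝ (fun y => f (c • (y - x0))) y =
      (fderiv ℝ f (c • (y - x0))).comp (c • ContinuousLinearMap.id ℝ E5) := h2.fderiv
  unfold pd
  rw [h3]
  simp

end FSca

open FSca

theorem pSca : S_Sca := by
  intro n
  induction n with
  | zero =>
    intro f hf c x0 x
    rw [sq_zero', sq_zero', pow_zero, one_pow, one_mul]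
  | succ n ih =>
    intro f hf c x0 x
    rw [sq_succ, sq_succ, Finset.mul_sum]
    refine Finset.sum_congr rfl fun k _ => ?_
    have h1 : pd k (fun y => f (c • (y - x0))) =
        fun y => (c : ℂ) * pd k f (c • (y - x0)) := by
      funext y
      exact pd_sca hf c x0 k y
    rw [h1, sq_const_mul n (sm_sca (hf.pd k) c x0), ih (pd k f) (hf.pd k) c x0 x,
      Complex.norm_real, Real.norm_eq_abs, sq_abs]
    ring

end Pool.Agent.CR5
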