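import Pool.Agent.Lib.CR5.SpecF

/-!
# CR5, block F: the Sobolev inequality on balls
-/

open MeasureTheory Set Filter Topology
open scoped ENNReal ComplexConjugate

noncomputable section

namespace Pool.Agent.CR5

/-- the square root is subadditive -/
theorem sob_sqrt_sum {ι : Type*} (s : Finset ι) (f : ι → ℝ) (hf : ∀ i, 0 ≤ f i) :
    Real.sqrt (∑ i ∈ s, f i) ≤ ∑ i ∈ s, Real.sqrt (f i) := by
  classical
  induction s using Finset.induction_on with
  | empty => simp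
  | insert i s hi ih =>
    rw [Finset.sum_insert hi, Finset.sum_insert hi]
    have h0 : 0 ≤ ∑ i ∈ s, f i := Finset.sum_nonneg fun k _ => hf k
    have h1 : Real.sqrt (f i + ∑ k ∈ s, f k) ≤ Real.sqrt (f i) + Real.sqrt (∑ k ∈ s, f k) := by
      apply Real.sqrt_le_iff.2
      refine ⟨by positivity, ?_⟩
      have q1 := Real.sq_sqrt (hf i)
      have q2 := Real.sq_sqrt h0
      have q3 := mul_nonneg (Real.sqrt_nonneg (f i)) (Real.sqrt_nonneg (∑ k ∈ s, f k))
      nlinarith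
    linarith

/-- Cauchy-Schwarz on a ball -/
theorem sob_cs {G : E5 → ℂ} (hG : Continuous G) (x : E5) {s : ℝ} (hs : s ≤ 1) :
    (∫ y in Metric.ball x s, ‖G y‖) ^ 2 ≤ volB * ∫ y in Metric.ball x s, ‖G y‖ ^ 2 := by
  have hb : Bornology.IsBounded (Metric.ball x s) := Metric.isBounded_ball
  have hfin : volume (Metric.ball x s) ≠ ⊤ := measure_ball_lt_top.ne
  set V : ℝ := (volume (Metric.ball x s)).toReal with hV
  have hV0 : 0 ≤ V := ENNReal.toReal_nonneg
  have hVB : V ≤ volB := by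
    refine ENNReal.toReal_mono measure_ball_lt_top.ne ?_
    rw [Measure.addHaar_ball_center]
    exact measure_mono (Metric.ball_subset_ball hs)
  have i1 : IntegrableOn (fun y => ‖G y‖) (Metric.ball x s) := intOn_cont hG.norm hb
  have i2 : IntegrableOn (fun y => ‖G y‖ ^ 2) (Metric.ball x s) := intOn_cont (hG.norm.pow 2) hb
  have i3 : IntegrableOn (fun _ : E5 => (1 : ℝ)) (Metric.ball x s) := integrableOn_const hfin
  have hA : 0 ≤ ∫ y in Metric.ball x s, ‖G y‖ ^ 2 := integral_nonneg fun _ => by positivity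
  have key : ∀ t : ℝ, 0 ≤ (∫ y in Metric.ball x s, ‖G y‖ ^ 2)
      + 2 * t * (∫ y in Metric.ball x s, ‖G y‖) + t ^ 2 * V := by
    intro t
    have e : ∫ y in Metric.ball x s, (‖G y‖ + t) ^ 2 = (∫ y in Metric.ball x s, ‖G y‖ ^ 2)
        + 2 * t * (∫ y in Metric.ball x s, ‖G y‖) + t ^ 2 * V := by
      have e1 : ∀ y, (‖G y‖ + t) ^ 2 = (‖G y‖ ^ 2 + (2 * t) * ‖G y‖) + t ^ 2 * 1 := fun y => by
        ring
      simp only [e1]
      have i12 : IntegrableOn (fun y => ‖G y‖ ^ 2 + (2 * t) * ‖G y‖) (Metric.ball x s) :=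
        i2.add (i1.const_mul _)
      rw [integral_add i12 (i3.const_mul _),
        integral_add i2 (i1.const_mul _), integral_const_mul, integral_const_mul]
      congr 2
      simp [Measure.real, hV]
    rw [← e]
    exact integral_nonneg fun _ => by positivity
  have h := quad_le hA hV0 key
  have h0 : 0 ≤ ∫ y in Metric.ball x s, ‖G y‖ := integral_nonneg fun _ => norm_nonneg _
  calc (∫ y in Metric.ball x s, ‖G y‖) ^ 2
      ≤ (Real.sqrt (∫ y in Metric.ball x s, ‖G y‖ ^ 2) * Real.sqrt V) ^ 2 :=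
        pow_le_pow_left₀ h0 h 2
    _ = (∫ y in Metric.ball x s, ‖G y‖ ^ 2) * V := by
        rw [mul_pow, Real.sq_sqrt hA, Real.sq_sqrt hV0]
    _ ≤ (∫ y in Metric.ball x s, ‖G y‖ ^ 2) * volB := mul_le_mul_of_nonneg_left hVB hA
    _ = _ := mul_comm _ _

/-- the case of order zero -/
theorem sob_zero (hM : S_Mix) (hB : S_Bmp) : ∃ A : ℝ, 0 ≤ A ∧ ∀ (f : E5 → ℂ) (x : E5) (s : ℝ),
    Sm f → 0 < s → s ≤ 1 →
    ‖f x‖ ^ 2 ≤ A / s ^ 10 * ∑ q ∈ Finset.range 6, ∫ y in Metric.ball x s, sq q f y := by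
  obtain ⟨C1, hC1, hψ⟩ := hB 5
  refine ⟨volB * (4 ^ 5 * C1 ^ 2), mul_nonneg volB_nonneg (by positivity), ?_⟩
  intro f x s hf hs hs1
  obtain ⟨ψ, ht, h1, h0, hb⟩ := hψ x s hs hs1
  have hgt : Tst fun y => ψ y * f y := ht.mul_right hf
  set g : E5 → ℂ := fun y => ψ y * f y with hg
  set G : E5 → ℂ := pd 0 (pd 1 (pd 2 (pd 3 (pd 4 g)))) with hG
  have hGt : Tst G := ((((hgt.pd 4).pd 3).pd 2).pd 1).pd 0
  have hball : Bornology.IsBounded (Metric.ball x s) := Metric.isBounded_ball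
  have hGsq : ∀ y, ‖G y‖ ^ 2 ≤ sq 5 g y := by
    intro y
    have a0 : ‖G y‖ ^ 2 = sq 0 G y := rfl
    rw [a0]
    refine (sq_pd_le 0 _ 0 y).trans ?_
    refine (sq_pd_le 1 _ 1 y).trans ?_
    refine (sq_pd_le 2 _ 2 y).trans ?_
    refine (sq_pd_le 3 _ 3 y).trans ?_
    exact sq_pd_le 4 _ 4 y
  have hout : ∀ y, y ∉ Metric.ball x s → ‖G y‖ = 0 := by
    intro y hy
    rw [Metric.mem_ball, not_lt] at hy
    have hev : g =ᶠ[𝓝 y] fun _ => 0 := by
      have : Metric.ball y (s / 2) ∈ 𝓝 y := Metric.ball_mem_nhds y (by linarith)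
      filter_upwards [this] with z hz
      have h3 : s / 2 ≤ dist z x := by
        have := dist_triangle y z x
        rw [Metric.mem_ball, dist_comm] at hz
        linarith
      rw [hg]
      show ψ z * f z = 0
      rw [h0 z h3, zero_mul]
    have h2 : ‖G y‖ ^ 2 ≤ 0 := by
      refine (hGsq y).trans (le_of_eq ?_)
      rw [sq_congr 5 hev, sq_zero_fun]
    have h4 := norm_nonneg (G y)
    nlinarith
  have hGi : ∫ y, ‖G y‖ = ∫ y in Metric.ball x s, ‖G y‖ :=
    (setIntegral_eq_integral_of_forall_compl_eq_zero hout).symm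
  have hfg : ‖f x‖ ≤ ∫ y in Metric.ball x s, ‖G y‖ := by
    have h2 := hM g hgt x
    rw [hGi] at h2
    have h3 : g x = f x := by
      rw [hg]; show ψ x * f x = f x
      rw [h1, one_mul]
    rwa [h3] at h2
  have hpt : ∀ y ∈ Metric.ball x s, ‖G y‖ ^ 2
      ≤ (4 ^ 5 * C1 ^ 2 / s ^ 10) * ∑ q ∈ Finset.range 6, sq q f y := by
    intro y _
    refine (hGsq y).trans ((sq_mul_le 5 ht.sm hf y).trans ?_)
    have hk : ∀ i ∈ Finset.range (5 + 1), sq i ψ y * sq (5 - i) f y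
        ≤ (C1 ^ 2 / s ^ 10) * sq (5 - i) f y := by
      intro i hi
      refine mul_le_mul_of_nonneg_right ?_ (sq_nonneg' _ _ _)
      have hi' : i ≤ 5 := by have := Finset.mem_range.1 hi; omega
      refine (hb i hi' y).trans ?_
      rw [div_pow, ← pow_mul]
      refine div_le_div_of_nonneg_left (by positivity) (by positivity) ?_
      exact pow_le_pow_of_le_one hs.le hs1 (by omega)
    have hsum : ∑ i ∈ Finset.range (5 + 1), sq i ψ y * sq (5 - i) f y
        ≤ (C1 ^ 2 / s ^ 10) * ∑ q ∈ Finset.range 6, sq q f y := by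
      refine (Finset.sum_le_sum hk).trans (le_of_eq ?_)
      rw [← Finset.mul_sum]
      congr 1
      exact Finset.sum_range_reflect (fun q => sq q f y) 6
    calc 4 ^ 5 * ∑ i ∈ Finset.range (5 + 1), sq i ψ y * sq (5 - i) f y
        ≤ 4 ^ 5 * ((C1 ^ 2 / s ^ 10) * ∑ q ∈ Finset.range 6, sq q f y) :=
          mul_le_mul_of_nonneg_left hsum (by positivity)
      _ = _ := by ring
  have hint : ∫ y in Metric.ball x s, ‖G y‖ ^ 2
      ≤ (4 ^ 5 * C1 ^ 2 / s ^ 10) * ∑ q ∈ Finset.range 6, ∫ y in Metric.ball x s, sq q f y := by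
    rw [← integral_finsetSum _ fun q _ => intOn_sq q hf hball, ← integral_const_mul]
    refine setIntegral_mono_on (intOn_cont (hGt.sm.cont.norm.pow 2) hball) ?_ measurableSet_ball hpt
    exact (integrable_finsetSum _ fun q _ => intOn_sq q hf hball).const_mul _
  calc ‖f x‖ ^ 2 ≤ (∫ y in Metric.ball x s, ‖G y‖) ^ 2 :=
        pow_le_pow_left₀ (norm_nonneg _) hfg 2
    _ ≤ volB * ∫ y in Metric.ball x s, ‖G y‖ ^ 2 := sob_cs hGt.sm.cont x hs1
    _ ≤ volB * ((4 ^ 5 * C1 ^ 2 / s ^ 10)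
        * ∑ q ∈ Finset.range 6, ∫ y in Metric.ball x s, sq q f y) :=
        mul_le_mul_of_nonneg_left hint volB_nonneg
    _ = _ := by ring

/-- all orders -/
theorem sob_all {A : ℝ} (h : ∀ (f : E5 → ℂ) (x : E5) (s : ℝ),
    Sm f → 0 < s → s ≤ 1 →
    ‖f x‖ ^ 2 ≤ A / s ^ 10 * ∑ q ∈ Finset.range 6, ∫ y in Metric.ball x s, sq q f y) :
    ∀ (i : ℕ) (f : E5 → ℂ) (x : E5) (s : ℝ), Sm f → 0 < s → s ≤ 1 →
    sq i f x ≤ A / s ^ 10 * ∑ q ∈ Finset.range 6, ∫ y in Metric.ball x s, sq (i + q) f y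
  | 0, f, x, s, hf, hs, hs1 => by simpa [sq_zero'] using h f x s hf hs hs1
  | i + 1, f, x, s, hf, hs, hs1 => by
    have hball : Bornology.IsBounded (Metric.ball x s) := Metric.isBounded_ball
    rw [sq_succ]
    refine (Finset.sum_le_sum fun k _ => sob_all h i (pd k f) x s (hf.pd k) hs hs1).trans
      (le_of_eq ?_)
    rw [← Finset.mul_sum, Finset.sum_comm]
    congr 1
    refine Finset.sum_congr rfl fun q _ => ?_
    rw [← integral_finsetSum _ fun k _ => intOn_sq (i + q) (hf.pd k) hball,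
      show i + 1 + q = (i + q) + 1 by omega]
    rfl

theorem pSob (hM : S_Mix) (hB : S_Bmp) : S_Sob := by
  obtain ⟨A, hA, h0⟩ := sob_zero hM hB
  have hall := sob_all h0
  refine ⟨max 1 A, 5, le_max_left _ _, ?_⟩
  intro f i x s hf hs hs1
  have hI : ∀ q, 0 ≤ ∫ y in Metric.ball x s, sq (i + q) f y := fun q => setInt_sq_nonneg _ _ _
  have h1 := Real.sqrt_le_sqrt (hall i f x s hf hs hs1)
  refine h1.trans ?_
  rw [Real.sqrt_mul (by positivity)]
  refine mul_le_mul ?_ (sob_sqrt_sum _ _ hI) (Real.sqrt_nonneg _) (by positivity)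
  have hC1 : 1 ≤ max 1 A := le_max_left _ _
  have hCA : A ≤ max 1 A := le_max_right _ _
  rw [div_pow]
  have e : Real.sqrt (A / s ^ 10) = Real.sqrt A / s ^ 5 := by
    rw [Real.sqrt_div hA, show s ^ 10 = (s ^ 5) ^ 2 by ring, Real.sqrt_sq (by positivity)]
  rw [e]
  refine div_le_div_of_nonneg_right ?_ (by positivity)
  have h2 : Real.sqrt A ≤ max 1 A := by
    refine Real.sqrt_le_iff.2 ⟨by positivity, ?_⟩
    nlinarith
  exact h2.trans (le_self_pow₀ hC1 (by norm_num))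

end Pool.Agent.CR5
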