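import Pool.Agent.Lib.CR5.SpecF

/-!
# CR5, block F, Sup: pointwise bounds from `NN`
-/

set_option autoImplicit false

open MeasureTheory Set Filter Topology
open scoped ENNReal ComplexConjugate

noncomputable section

namespace Pool.Agent.CR5

theorem pSup (h : S_SOB) : S_Sup := by
  obtain ⟨C, p, hC, hS⟩ := h
  refine ⟨C, p, hC, ?_⟩
  intro m w hw s hs hs1 Ω' Ω hInn hΩ f hf i hi x hx
  have hanti : Antitone w := antitone_nat_of_succ_le hw.anti
  have hball : Metric.ball x s ⊆ Ω := hInn x hx
  have hCs : (0 : ℝ) ≤ (C / s) ^ p := by positivity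
  have hw0 : 0 ≤ w (i + 5) := (hw.pos _).le
  have h1 : ∑ q ∈ Finset.range 6, w (i + 5) * Real.sqrt (∫ y in Metric.ball x s, sq (i + q) f y)
      ≤ NN w m Ω f := by
    have h2 : ∀ q ∈ Finset.range 6,
        w (i + 5) * Real.sqrt (∫ y in Metric.ball x s, sq (i + q) f y) ≤
          w (i + q) * Real.sqrt (∫ y in Ω, sq (i + q) f y) := by
      intro q hq
      have hq' : q ≤ 5 := by
        have := Finset.mem_range.1 hq
        omega
      apply mul_le_mul (hanti (by omega)) _ (Real.sqrt_nonneg _) (hw.pos _).le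
      apply Real.sqrt_le_sqrt
      exact setIntegral_mono_set (intOn_sq _ hf (bdd_of_ball hΩ))
        (Eventually.of_forall fun y => sq_nonneg' _ f y) (LE.le.eventuallyLE hball)
    refine (Finset.sum_le_sum h2).trans ?_
    have h3 : ∑ q ∈ Finset.range 6, w (i + q) * Real.sqrt (∫ y in Ω, sq (i + q) f y) =
        ∑ j ∈ (Finset.range 6).map (addLeftEmbedding i),
          w j * Real.sqrt (∫ y in Ω, sq j f y) := by
      rw [Finset.sum_map]
      rfl
    rw [h3]
    unfold NN
    apply Finset.sum_le_sum_of_subset_of_nonneg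
    · intro j hj
      obtain ⟨q, hq, rfl⟩ := Finset.mem_map.1 hj
      have hq' := Finset.mem_range.1 hq
      rw [Finset.mem_range]
      show i + q < m + 1
      omega
    · intro j _ _
      exact mul_nonneg (hw.pos _).le (Real.sqrt_nonneg _)
  calc w (i + 5) * Real.sqrt (sq i f x)
      ≤ w (i + 5) * ((C / s) ^ p *
          ∑ q ∈ Finset.range 6, Real.sqrt (∫ y in Metric.ball x s, sq (i + q) f y)) :=
        mul_le_mul_of_nonneg_left (hS f i x s hf hs hs1) hw0
    _ = (C / s) ^ p * ∑ q ∈ Finset.range 6,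
          w (i + 5) * Real.sqrt (∫ y in Metric.ball x s, sq (i + q) f y) := by
        rw [← Finset.mul_sum]
        ring
    _ ≤ (C / s) ^ p * NN w m Ω f := mul_le_mul_of_nonneg_left h1 hCs

end Pool.Agent.CR5
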