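import Pool.Agent.Lib.CR5.SpecF

/-!
# CR5, block F: bounds for the sums of squares of iterated `Tk`
-/

open MeasureTheory Set Filter Topology
open scoped ENNReal ComplexConjugate

noncomputable section

namespace Pool.Agent.CR5

namespace FTqb

theorem smTk {φ f : E5 → ℂ} (hφ : Sm φ) (hf : Sm f) (k : Fin 5) : Sm (Tk φ k f) :=
  (hf.pd k).add ((hφ.pd k).mul hf)

theorem tq_cont {φ : E5 → ℂ} (hφ : Sm φ) : ∀ (n : ℕ) {f : E5 → ℂ}, Sm f → Continuous (tq φ n f)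
  | 0, f, hf => by
    have : tq φ 0 f = fun x => ‖f x‖ ^ 2 := rfl
    rw [this]; exact (hf.cont.norm).pow 2
  | n + 1, f, hf => by
    have : tq φ (n + 1) f = fun x => ∑ k : Fin 5, tq φ n (Tk φ k f) x := rfl
    rw [this]
    exact continuous_finset_sum _ fun k _ => tq_cont hφ n (smTk hφ hf k)

theorem tq_nonneg (φ : E5 → ℂ) : ∀ (n : ℕ) (f : E5 → ℂ) (x : E5), 0 ≤ tq φ n f x
  | 0, f, x => by
    show 0 ≤ ‖f x‖ ^ 2
    positivity
  | n + 1, f, x => by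
    show 0 ≤ ∑ k : Fin 5, tq φ n (Tk φ k f) x
    exact Finset.sum_nonneg fun k _ => tq_nonneg φ n _ x

theorem ao_mono {h : ℕ → ℝ} {m : ℕ} {G : Set E5} {r : ℕ} {A A' : ℝ} {f : E5 → ℂ} (h0 : 0 ≤ A)
    (hA : A ≤ A') (hf : AO h m G r A f) : AO h m G r A' f :=
  ⟨fun i hi x hx => (hf.sup i hi x hx).trans (pow_le_pow_left₀ h0 hA 2),
    fun i hi => (hf.l2 i hi).trans (pow_le_pow_left₀ h0 hA 2)⟩

theorem step {h : ℕ → ℝ} {m : ℕ} {G : Set E5} {C : ℝ} (hC : 1 ≤ C)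
    (h1 : (∀ (r : ℕ) (A B : ℝ) (f g : E5 → ℂ), Sm f → Sm g → 0 ≤ A → 0 ≤ B → AO h m G r A f →
        AO h m G r B g → AO h m G r (A + B) (fun x => f x + g x)) ∧
      (∀ (r : ℕ) (A : ℝ) (f : E5 → ℂ) (k : Fin 5), Sm f → AO h m G r A f →
        AO h m G (r + 1) A (pd k f)) ∧
      (∀ (r : ℕ) (A : ℝ) (f : E5 → ℂ), AO h m G r A f → AO h m G (r + 1) A f))
    (h2 : ∀ (r r' : ℕ) (A B : ℝ) (f g : E5 → ℂ), Sm f → Sm g → 0 ≤ A → 0 ≤ B →
      AO h m G r A f → AO h m G r' B g → AO h m G (r + r') (C * A * B) (fun x => f x * g x))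
    {r : ℕ} {P A : ℝ} {φ f : E5 → ℂ} (hφ : Sm φ) (hf : Sm f) (hP : 0 ≤ P) (hA : 0 ≤ A)
    (aφ : AO h m G 0 P φ) (af : AO h m G r A f) (k : Fin 5) :
    AO h m G (r + 1) (C * (1 + P) * A) (Tk φ k f) := by
  have b1 := h1.2.1 r A f k hf af
  have b2 := h1.2.1 0 P φ k hφ aφ
  have b3 := h2 (0 + 1) r P A (pd k φ) f (hφ.pd k) hf hP hA b2 af
  rw [show 0 + 1 + r = r + 1 by omega] at b3
  have hCPA : 0 ≤ C * P * A := by positivity
  have b4 := h1.1 (r + 1) A (C * P * A) (pd k f) (fun x => pd k φ x * f x) (hf.pd k)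
    ((hφ.pd k).mul hf) hA hCPA b1 b3
  refine ao_mono (by positivity) ?_ b4
  nlinarith

theorem bound {h : ℕ → ℝ} {m : ℕ} {G : Set E5} (hG : Bornology.IsBounded G) {K : ℝ}
    (hK : 0 ≤ K) {φ : E5 → ℂ} (hφ : Sm φ)
    (hs : ∀ (r : ℕ) (A : ℝ) (f : E5 → ℂ), Sm f → 0 ≤ A → AO h m G r A f → ∀ k,
      AO h m G (r + 1) (K * A) (Tk φ k f)) :
    ∀ (n r : ℕ) (A : ℝ) (f : E5 → ℂ), Sm f → 0 ≤ A → AO h m G r A f → r + n ≤ m →
      h (r + n) ^ 2 * ∫ x in G, tq φ n f x ≤ (5 * K ^ 2) ^ n * A ^ 2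
  | 0, r, A, f, hf, hA, af, hr => by
    have := af.l2 0 (by omega)
    simpa [tq, sq] using this
  | n + 1, r, A, f, hf, hA, af, hr => by
    have ih := fun k : Fin 5 => bound hG hK hφ hs n (r + 1) (K * A) (Tk φ k f) (smTk hφ hf k)
      (mul_nonneg hK hA) (hs r A f hf hA af k) (by omega)
    have e : ∫ x in G, tq φ (n + 1) f x = ∑ k : Fin 5, ∫ x in G, tq φ n (Tk φ k f) x := by
      rw [← integral_finset_sum _ fun k _ => intOn_cont (tq_cont hφ n (smTk hφ hf k)) hG]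
      rfl
    rw [e, Finset.mul_sum, show r + (n + 1) = r + 1 + n by omega]
    refine (Finset.sum_le_sum fun k _ => ih k).trans (le_of_eq ?_)
    rw [Finset.sum_const, Finset.card_univ, Fintype.card_fin]
    simp only [nsmul_eq_mul]
    push_cast
    ring

end FTqb

theorem pTqb (h1 : S_Aoa) (h2 : S_Aop) : S_Tqb := by
  intro m
  obtain ⟨C, hC, h2C⟩ := h2 m
  refine ⟨C, hC, fun h hAd G hGo hG P A φ f hφ hf hP hA aφ af n hn => ?_⟩
  have := FTqb.bound (h := h) (m := m) (bdd_of_ball hG) (K := C * (1 + P)) (by positivity) hφ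
    (fun r A f hf hA af k => FTqb.step hC (h1 h m G hAd hG) (h2C h hAd G hGo hG) hφ hf hP hA
      aφ af k) n 0 A f hf hA af (by omega)
  rwa [zero_add] at this

end Pool.Agent.CR5
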