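import Pool.Agent.Lib.CR5.SpecF

/-!
# CR5, block F, Tqe: derivatives of a product with an exponential
-/

set_option autoImplicit false

open MeasureTheory Set Filter Topology
open scoped ENNReal ComplexConjugate

noncomputable section

namespace Pool.Agent.CR5

namespace FTqe

theorem sm_Tk {φ f : E5 → ℂ} (hφ : Sm φ) (hf : Sm f) (k : Fin 5) : Sm (Tk φ k f) :=
  (hf.pd k).add ((hφ.pd k).mul hf)

theorem pd_exp_mul {φ f : E5 → ℂ} (hφ : Sm φ) (hf : Sm f) (k : Fin 5) :
    pd k (fun y => Complex.exp (φ y) * f y) = fun y => Complex.exp (φ y) * Tk φ k f y := by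
  funext y
  rw [pd_mul hφ.cexp hf, pd_cexp hφ]
  unfold Tk
  ring

end FTqe

open FTqe

theorem pTqe : S_Tqe := by
  intro φ hφ n
  induction n with
  | zero =>
    intro f hf x
    rw [sq_zero', norm_mul, mul_pow]
    rfl
  | succ n ih =>
    intro f hf x
    rw [sq_succ]
    show _ = ‖Complex.exp (φ x)‖ ^ 2 * ∑ k : Fin 5, tq φ n (Tk φ k f) x
    rw [Finset.mul_sum]
    refine Finset.sum_congr rfl fun k _ => ?_
    rw [pd_exp_mul hφ hf, ih (Tk φ k f) (sm_Tk hφ hf k) x]

end Pool.Agent.CR5
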