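import Pool.Agent.Lib.CR5.SpecF

/-!
# CR5, block F: admissible weights
-/

open MeasureTheory Set Filter Topology
open scoped ENNReal ComplexConjugate

noncomputable section

namespace Pool.Agent.CR5

theorem pWt1 : S_Wt1 where
  big := le_rfl
  one := fun _ _ => rfl
  pos := fun _ => one_pos
  anti := fun _ => le_rfl
  mul := fun _ _ _ _ => by norm_num

namespace FWt

theorem ex_low (F : ℕ → ℝ) : ∀ n : ℕ, (∀ i ≤ n, 0 < F i) → ∃ θ > 0, ∀ i ≤ n, θ ≤ F i
  | 0, h => ⟨F 0, h 0 le_rfl, fun i hi => by
      have : i = 0 := by omega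
      rw [this]⟩
  | n + 1, h => by
    obtain ⟨θ, h0, h1⟩ := ex_low F n fun i hi => h i (by omega)
    refine ⟨min θ (F (n + 1)), lt_min h0 (h _ le_rfl), fun i hi => ?_⟩
    by_cases hn : i ≤ n
    · exact (min_le_left _ _).trans (h1 i hn)
    · have : i = n + 1 := by omega
      rw [this]
      exact min_le_right _ _

end FWt

theorem pWt2 : S_Wt2 := by
  intro h m η hA hη
  have hbig : 10 ≤ m := hA.big
  obtain ⟨θ0, h0, h1⟩ := FWt.ex_low (fun i => h (i + 5) * h (m + 1 - i)) m
    fun i _ => mul_pos (hA.pos _) (hA.pos _)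
  obtain ⟨θ, hθ0, hθη, hθ1⟩ : ∃ θ > 0, θ ≤ η ∧ θ ≤ θ0 :=
    ⟨min η θ0, lt_min hη h0, min_le_left _ _, min_le_right _ _⟩
  have hle : ∀ i, i ≤ m → (if i ≤ m then h i else min (h i) θ) = h i := fun i hi => if_pos hi
  have hgt : ∀ i, m < i → (if i ≤ m then h i else min (h i) θ) = min (h i) θ :=
    fun i hi => if_neg (by omega)
  refine ⟨fun i => if i ≤ m then h i else min (h i) θ, hle, ?_, ?_, ?_⟩
  · show (if m + 1 ≤ m then h (m + 1) else min (h (m + 1)) θ) ≤ η
    rw [hgt _ (by omega)]
    exact (min_le_right _ _).trans hθη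
  · intro i
    show (if i ≤ m then h i else min (h i) θ) ≤ h i
    split_ifs
    · exact le_rfl
    · exact min_le_left _ _
  · refine ⟨?_, ?_, ?_, ?_, ?_⟩
    · show 10 ≤ m + 1
      omega
    · intro i hi
      have hi' : i ≤ 10 := hi
      show (if i ≤ m then h i else min (h i) θ) = 1
      rw [hle i (by omega)]
      exact hA.one i hi
    · intro i
      show 0 < (if i ≤ m then h i else min (h i) θ)
      split_ifs
      · exact hA.pos i
      · exact lt_min (hA.pos i) hθ0
    · intro i
      show (if i + 1 ≤ m then h (i + 1) else min (h (i + 1)) θ)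
        ≤ (if i ≤ m then h i else min (h i) θ)
      by_cases a : i + 1 ≤ m
      · rw [hle _ a, hle _ (by omega)]
        exact hA.anti i
      · rw [hgt _ (by omega)]
        by_cases b : i ≤ m
        · rw [hle _ b]
          exact (min_le_left _ _).trans (hA.anti i)
        · rw [hgt _ (by omega)]
          exact min_le_min_right _ (hA.anti i)
    · intro i l hil hm
      show (if i + l ≤ m then h (i + l) else min (h (i + l)) θ)
        ≤ (if i + 5 ≤ m then h (i + 5) else min (h (i + 5)) θ)
          * (if l ≤ m then h l else min (h l) θ)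
      rw [hle (i + 5) (by omega)]
      by_cases a : i + l ≤ m
      · rw [hle _ a, hle l (by omega)]
        exact hA.mul i l hil a
      · by_cases b : i = 0
        · subst b
          have h5 : h (0 + 5) = 1 := hA.one 5 (by show 5 ≤ 10; omega)
          rw [h5, zero_add, one_mul]
        · have hl : l = m + 1 - i := by omega
          have hlm : l ≤ m := by omega
          rw [hgt _ (by omega), hle l hlm, hl]
          exact (min_le_right _ _).trans (hθ1.trans (h1 i (by omega)))

end Pool.Agent.CR5
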