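import Pool.Agent.Lib.CR5.F.Mix
import Pool.Agent.Lib.CR5.F.Sca
import Pool.Agent.Lib.CR5.F.Bmp
import Pool.Agent.Lib.CR5.F.Sob
import Pool.Agent.Lib.CR5.F.Sup
import Pool.Agent.Lib.CR5.F.Aof
import Pool.Agent.Lib.CR5.F.Aon
import Pool.Agent.Lib.CR5.F.Aoa
import Pool.Agent.Lib.CR5.F.Aop
import Pool.Agent.Lib.CR5.F.Tqe
import Pool.Agent.Lib.CR5.F.Tqb
import Pool.Agent.Lib.CR5.F.Exp0
import Pool.Agent.Lib.CR5.F.Expo
import Pool.Agent.Lib.CR5.F.Pr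
import Pool.Agent.Lib.CR5.F.Pb
import Pool.Agent.Lib.CR5.F.Ptw
import Pool.Agent.Lib.CR5.F.Inv
import Pool.Agent.Lib.CR5.F.Ept
import Pool.Agent.Lib.CR5.F.Wt
import Pool.Agent.Lib.CR5.F.Cnv
import Pool.Agent.Lib.CR5.F.Cut1
import Pool.Agent.Lib.CR5.F.Cut2
import Pool.Agent.Lib.CR5.F.Ifd

/-!
# CR5, block F: assembly (all statements of block F, without hypotheses)
-/

noncomputable section

namespace Pool.Agent.CR5

theorem okSOB : S_SOB := pSob pMix (pBmp pSca)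

theorem okSup : S_Sup := pSup okSOB

theorem okAof : S_Aof := pAof okSup

theorem okExp0 : S_Exp0 := pExp0 pTqe (pTqb pAoa pAop)

theorem okEXPO : S_EXPO := pExpo okAof okExp0

theorem okPR : S_PR := pPr okAof pAon pAop

theorem okPB : S_PB := pPb

theorem okCUT2 : S_CUT2 := pCut2 (pCut1 pCnv) pSca

theorem okCUT : S_CUT := by
  intro m
  obtain ⟨C, hC, H⟩ := okCUT2 m
  refine ⟨C, hC, fun A s hs hs1 => ?_⟩
  obtain ⟨χ, h1, h2, h3, h4, h5⟩ := H A s hs hs1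
  exact ⟨χ, h1, h2, fun x hx => h3 x hx x (by rw [dist_self]; positivity), h4, h5⟩

end Pool.Agent.CR5
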