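import Pool.Agent.Lib.CR5.SpecF

/-!
# CR5, block F: a test function is bounded by the `L¹` norm of its mixed derivative of order five
-/

open MeasureTheory Set Filter Topology
open scoped ENNReal ComplexConjugate

noncomputable section

namespace Pool.Agent.CR5

theorem mix_line (z : Fin 5 → ℝ) (i : Fin 5) (u : ℝ) :
    (WithLp.toLp 2 (Function.update z i u) : E5)
      = WithLp.toLp 2 (Function.update z i 0) + u • e5 i := by
  ext j
  by_cases h : j = i
  · subst h
    simp [e5]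
  · simp [e5, h]

theorem mix_isom (p : E5) (i : Fin 5) : Isometry fun u : ℝ => p + u • e5 i := by
  refine Isometry.of_dist_eq fun u v => ?_
  rw [dist_add_left, dist_eq_norm, ← sub_smul, norm_smul, dist_eq_norm]
  simp [e5]

/-- the one dimensional bound -/
theorem mix_one {g : E5 → ℂ} (hg : Tst g) (i : Fin 5) (z : Fin 5 → ℝ) :
    ‖g (WithLp.toLp 2 z)‖ₑ
      ≤ ∫⁻ u, ‖pd i g (WithLp.toLp 2 (Function.update z i u))‖ₑ := by
  set p : E5 := WithLp.toLp 2 (Function.update z i 0) with hp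
  set v : ℝ → ℂ := fun u => g (p + u • e5 i) with hv
  have hline : ∀ u : ℝ, (WithLp.toLp 2 (Function.update z i u) : E5) = p + u • e5 i :=
    fun u => mix_line z i u
  have hsm : ContDiff ℝ 1 v := by
    have h1 : ContDiff ℝ 1 g := hg.sm.contDiff.of_le (by norm_cast)
    exact h1.comp (contDiff_const.add (contDiff_id.smul contDiff_const))
  have hcs : HasCompactSupport v := hg.cs.comp_isClosedEmbedding (mix_isom p i).isClosedEmbedding
  have hd : ∀ u, deriv v u = pd i g (p + u • e5 i) := by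
    intro u
    have h1 : HasDerivAt (fun u : ℝ => p + u • e5 i) (e5 i) u := by
      have := ((hasDerivAt_id u).smul_const (e5 i)).const_add p
      simpa using this
    exact ((hg.sm.diffAt _).hasFDerivAt.comp_hasDerivAt u h1).deriv
  have h0 : v (z i) = g (WithLp.toLp 2 z) := by
    rw [hv]
    show g (p + z i • e5 i) = _
    rw [← hline, Function.update_eq_self]
  rw [← h0]
  refine (HasCompactSupport.enorm_le_lintegral_Ici_deriv hsm hcs (z i)).trans ?_
  refine (setLIntegral_le_lintegral _ _).trans (le_of_eq ?_)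
  refine lintegral_congr fun u => ?_
  rw [hd, hline]

theorem mix_meas {g : E5 → ℂ} (hg : Continuous g) :
    Measurable fun z : Fin 5 → ℝ => ‖g (WithLp.toLp 2 z)‖ₑ :=
  ((hg.comp (PiLp.continuous_toLp 2 _)).enorm).measurable

/-- the induction step -/
theorem mix_step {g : E5 → ℂ} (hg : Tst g) (s : Finset (Fin 5)) (i : Fin 5) (hi : i ∉ s)
    (z : Fin 5 → ℝ) :
    (∫⋯∫⁻_s, (fun z : Fin 5 → ℝ => ‖g (WithLp.toLp 2 z)‖ₑ) ∂(fun _ => volume)) z
      ≤ (∫⋯∫⁻_insert i s, (fun z : Fin 5 → ℝ => ‖pd i g (WithLp.toLp 2 z)‖ₑ)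
        ∂(fun _ => volume)) z := by
  rw [lmarginal_insert' _ (mix_meas (hg.pd i).sm.cont) hi]
  exact lmarginal_mono (fun z => mix_one hg i z) z

theorem pMix : S_Mix := by
  intro g hg x
  set G : E5 → ℂ := pd 0 (pd 1 (pd 2 (pd 3 (pd 4 g)))) with hG
  have hGt : Tst G := ((((hg.pd 4).pd 3).pd 2).pd 1).pd 0
  set z : Fin 5 → ℝ := WithLp.ofLp x with hz
  have hzx : (WithLp.toLp 2 z : E5) = x := rfl
  have h1 : ‖g x‖ₑ ≤ ∫⁻ y, ‖G y‖ₑ := by
    have e0 : ‖g x‖ₑ
        = (∫⋯∫⁻_(∅ : Finset (Fin 5)), (fun z : Fin 5 → ℝ => ‖g (WithLp.toLp 2 z)‖ₑ)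
          ∂(fun _ => volume)) z := by
      rw [lmarginal_empty, hzx]
    have e5' := mix_step ((((hg.pd 4).pd 3).pd 2).pd 1) {1, 2, 3, 4} 0 (by decide) z
    have e4 := mix_step (((hg.pd 4).pd 3).pd 2) {2, 3, 4} 1 (by decide) z
    have e3 := mix_step ((hg.pd 4).pd 3) {3, 4} 2 (by decide) z
    have e2 := mix_step (hg.pd 4) {4} 3 (by decide) z
    have e1 := mix_step hg ∅ 4 (by decide) z
    have hins : insert (4 : Fin 5) (∅ : Finset (Fin 5)) = {4} := by decide
    rw [hins] at e1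
    have hun : insert (0 : Fin 5) ({1, 2, 3, 4} : Finset (Fin 5)) = Finset.univ := by decide
    rw [hun, lmarginal_univ] at e5'
    have e6 : ∫⁻ z : Fin 5 → ℝ, ‖G (WithLp.toLp 2 z)‖ₑ ∂Measure.pi (fun _ => volume)
        = ∫⁻ y, ‖G y‖ₑ := by
      rw [← volume_pi]
      exact (PiLp.volume_preserving_toLp (Fin 5)).lintegral_comp hGt.sm.cont.enorm.measurable
    rw [e0]
    exact ((((e1.trans e2).trans e3).trans e4).trans e5').trans (le_of_eq e6)
  have h2 : ENNReal.ofReal (∫ y, ‖G y‖) = ∫⁻ y, ‖G y‖ₑ :=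
    ofReal_integral_norm_eq_lintegral_enorm hGt.integrable
  rw [← h2, ← ofReal_norm] at h1
  exact (ENNReal.ofReal_le_ofReal_iff (integral_nonneg fun _ => norm_nonneg _)).1 h1

end Pool.Agent.CR5
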