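import Pool.Agent.Lib.CR5.F.Sq

/-!
# CR5, block F: elementary properties of `NN`
-/

open MeasureTheory Set Filter Topology
open scoped ENNReal ComplexConjugate

noncomputable section

namespace Pool.Agent.CR5

theorem intOn_cont {u : E5 → ℝ} (hu : Continuous u) {Ω : Set E5} (hΩ : Bornology.IsBounded Ω) :
    IntegrableOn u Ω volume := by
  obtain ⟨r, hr⟩ := hΩ.subset_closedBall (0 : E5)
  exact (hu.continuousOn.integrableOn_compact (isCompact_closedBall (0 : E5) r)).mono_set hr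

theorem intOn_sq (n : ℕ) {f : E5 → ℂ} (hf : Sm f) {Ω : Set E5} (hΩ : Bornology.IsBounded Ω) :
    IntegrableOn (sq n f) Ω volume :=
  intOn_cont (sq_continuous n hf) hΩ

theorem bdd_of_ball {Ω : Set E5} (h : Ω ⊆ Metric.ball 0 1) : Bornology.IsBounded Ω :=
  Metric.isBounded_ball.subset h

theorem setInt_sq_nonneg (n : ℕ) (f : E5 → ℂ) (Ω : Set E5) : 0 ≤ ∫ x in Ω, sq n f x :=
  integral_nonneg fun x => sq_nonneg' n f x

/-- Minkowski. -/
theorem sqrt_int_add_le (n : ℕ) {f g : E5 → ℂ} (hf : Sm f) (hg : Sm g) {μ : Measure E5}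
    (if_ : Integrable (sq n f) μ) (ig : Integrable (sq n g) μ) :
    Real.sqrt (∫ x, sq n (fun y => f y + g y) x ∂μ)
      ≤ Real.sqrt (∫ x, sq n f x ∂μ) + Real.sqrt (∫ x, sq n g x ∂μ) := by
  have ib : Integrable (bl n f g) μ := by
    refine Integrable.mono' ((if_.add ig).div_const 2)
      (bl_continuous n hf hg).aestronglyMeasurable (Eventually.of_forall fun x => ?_)
    rw [Real.norm_eq_abs, abs_le]
    have h1 := two_mul_bl_le n hf hg x
    have h2 := sq_nonneg' n (fun y => f y + g y) x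
    rw [sq_add_eq n hf hg] at h2
    constructor
    · show -((sq n f x + sq n g x) / 2) ≤ _
      linarith
    · show _ ≤ (sq n f x + sq n g x) / 2
      linarith
  have key : ∀ t : ℝ, ∫ x, sq n (fun y => f y + (t : ℂ) * g y) x ∂μ
      = (∫ x, sq n f x ∂μ) + 2 * t * (∫ x, bl n f g x ∂μ) + t ^ 2 * ∫ x, sq n g x ∂μ := by
    intro t
    have e1 : ∫ x, (sq n f x + 2 * t * bl n f g x) ∂μ
        = (∫ x, sq n f x ∂μ) + 2 * t * ∫ x, bl n f g x ∂μ := by
      rw [integral_add if_ (ib.const_mul _), integral_const_mul]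
    have i12 : Integrable (fun x => sq n f x + 2 * t * bl n f g x) μ :=
      if_.add (ib.const_mul _)
    have e2 : ∫ x, ((sq n f x + 2 * t * bl n f g x) + t ^ 2 * sq n g x) ∂μ
        = (∫ x, (sq n f x + 2 * t * bl n f g x) ∂μ) + t ^ 2 * ∫ x, sq n g x ∂μ := by
      rw [integral_add i12 (ig.const_mul _), integral_const_mul]
    rw [← e1, ← e2]
    exact integral_congr_ae (Eventually.of_forall fun x => sq_lin n hf hg t x)
  have h1 := key 1
  simp only [Complex.ofReal_one, one_mul, one_pow, mul_one] at h1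
  rw [h1]
  have hb : (∫ x, bl n f g x ∂μ) ≤ Real.sqrt (∫ x, sq n f x ∂μ) * Real.sqrt (∫ x, sq n g x ∂μ) :=
    quad_le (integral_nonneg fun x => sq_nonneg' n f x) (integral_nonneg fun x => sq_nonneg' n g x)
      fun t => by rw [← key t]; exact integral_nonneg fun x => sq_nonneg' n _ x
  apply Real.sqrt_le_iff.2
  refine ⟨by positivity, ?_⟩
  have q1 := Real.sq_sqrt (integral_nonneg (μ := μ) fun x => sq_nonneg' n f x)
  have q2 := Real.sq_sqrt (integral_nonneg (μ := μ) fun x => sq_nonneg' n g x)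
  nlinarith [hb, q1, q2]

theorem NN_nonneg {h : ℕ → ℝ} (hh : ∀ i, 0 < h i) (m : ℕ) (Ω : Set E5) (f : E5 → ℂ) :
    0 ≤ NN h m Ω f :=
  Finset.sum_nonneg fun i _ => mul_nonneg (hh i).le (Real.sqrt_nonneg _)

theorem NN_term {h : ℕ → ℝ} (hh : ∀ i, 0 < h i) {m i : ℕ} (hi : i ≤ m) (Ω : Set E5)
    (f : E5 → ℂ) : h i * Real.sqrt (∫ x in Ω, sq i f x) ≤ NN h m Ω f :=
  Finset.single_le_sum (f := fun i => h i * Real.sqrt (∫ x in Ω, sq i f x))
    (fun i _ => mul_nonneg (hh i).le (Real.sqrt_nonneg _)) (Finset.mem_range.2 (by omega))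

theorem NN_mono {h : ℕ → ℝ} (hh : ∀ i, 0 < h i) (m : ℕ) {Ω' Ω : Set E5} (hs : Ω' ⊆ Ω)
    (hb : Bornology.IsBounded Ω) {f : E5 → ℂ} (hf : Sm f) : NN h m Ω' f ≤ NN h m Ω f := by
  refine Finset.sum_le_sum fun i _ => mul_le_mul_of_nonneg_left (Real.sqrt_le_sqrt ?_) (hh i).le
  exact setIntegral_mono_set (intOn_sq i hf hb)
    (Eventually.of_forall fun x => sq_nonneg' i f x) (LE.le.eventuallyLE hs)

theorem NN_add_le {h : ℕ → ℝ} (hh : ∀ i, 0 < h i) (m : ℕ) {Ω : Set E5}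
    (hb : Bornology.IsBounded Ω) {f g : E5 → ℂ} (hf : Sm f) (hg : Sm g) :
    NN h m Ω (fun x => f x + g x) ≤ NN h m Ω f + NN h m Ω g := by
  unfold NN
  rw [← Finset.sum_add_distrib]
  refine Finset.sum_le_sum fun i _ => ?_
  rw [← mul_add]
  exact mul_le_mul_of_nonneg_left
    (sqrt_int_add_le i hf hg (intOn_sq i hf hb) (intOn_sq i hg hb)) (hh i).le

theorem NN_const_mul (h : ℕ → ℝ) (m : ℕ) (Ω : Set E5) {f : E5 → ℂ} (hf : Sm f) (c : ℂ) :
    NN h m Ω (fun x => c * f x) = ‖c‖ * NN h m Ω f := by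
  unfold NN
  rw [Finset.mul_sum]
  refine Finset.sum_congr rfl fun i _ => ?_
  have : ∫ x in Ω, sq i (fun y => c * f y) x = ‖c‖ ^ 2 * ∫ x in Ω, sq i f x := by
    rw [← integral_const_mul]
    exact integral_congr_ae (Eventually.of_forall fun x => sq_const_mul i hf c x)
  rw [this, Real.sqrt_mul (by positivity), Real.sqrt_sq (norm_nonneg c)]
  ring

theorem NN_neg (h : ℕ → ℝ) (m : ℕ) (Ω : Set E5) {f : E5 → ℂ} (hf : Sm f) :
    NN h m Ω (fun x => -f x) = NN h m Ω f := by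
  have := NN_const_mul h m Ω hf (-1)
  simpa using this

theorem NN_sub_le {h : ℕ → ℝ} (hh : ∀ i, 0 < h i) (m : ℕ) {Ω : Set E5}
    (hb : Bornology.IsBounded Ω) {f g : E5 → ℂ} (hf : Sm f) (hg : Sm g) :
    NN h m Ω (fun x => f x - g x) ≤ NN h m Ω f + NN h m Ω g := by
  have := NN_add_le hh m hb hf hg.neg
  rw [NN_neg h m Ω hg] at this
  simpa only [sub_eq_add_neg] using this

theorem NN_congr (h : ℕ → ℝ) (m : ℕ) {Ω : Set E5} (ho : IsOpen Ω) {f g : E5 → ℂ}
    (hfg : ∀ x ∈ Ω, f x = g x) : NN h m Ω f = NN h m Ω g := by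
  unfold NN
  refine Finset.sum_congr rfl fun i _ => ?_
  rw [setIntegral_congr_fun ho.measurableSet fun x hx => sq_eq_of_open ho hfg hx]

theorem NN_zero (h : ℕ → ℝ) (m : ℕ) (Ω : Set E5) : NN h m Ω (fun _ => 0) = 0 := by
  unfold NN
  refine Finset.sum_eq_zero fun i _ => ?_
  simp [sq_zero_fun]

theorem NN_sum_le {h : ℕ → ℝ} (hh : ∀ i, 0 < h i) (m : ℕ) {Ω : Set E5}
    (hb : Bornology.IsBounded Ω) {ι : Type*} (s : Finset ι) {f : ι → E5 → ℂ}
    (hf : ∀ i ∈ s, Sm (f i)) :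
    NN h m Ω (fun x => ∑ i ∈ s, f i x) ≤ ∑ i ∈ s, NN h m Ω (f i) := by
  classical
  induction s using Finset.induction_on with
  | empty => simp [NN_zero]
  | insert i s hi ih =>
    simp only [Finset.sum_insert hi]
    refine (NN_add_le hh m hb (hf i (Finset.mem_insert_self _ _))
      (Sm.sum s fun k hk => hf k (Finset.mem_insert_of_mem hk))).trans ?_
    have := ih fun k hk => hf k (Finset.mem_insert_of_mem hk)
    linarith

/-- Integral of a bounded function over a subset of the unit ball. -/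
theorem setInt_le_of_bdd {u : E5 → ℝ} (hu : Continuous u) {Ω : Set E5} (ho : MeasurableSet Ω)
    (hΩ : Ω ⊆ Metric.ball 0 1) {B : ℝ} (hB : 0 ≤ B) (h : ∀ x ∈ Ω, u x ≤ B) :
    ∫ x in Ω, u x ≤ B * (volume (Metric.ball (0 : E5) 1)).toReal := by
  have hfin : volume Ω ≠ ⊤ :=
    ((measure_mono hΩ).trans_lt measure_ball_lt_top).ne
  calc ∫ x in Ω, u x ≤ ∫ _x in Ω, B :=
        setIntegral_mono_on (intOn_cont hu (bdd_of_ball hΩ))
          (integrableOn_const hfin) ho h
    _ = (volume Ω).toReal * B := by simp [Measure.real]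
    _ ≤ (volume (Metric.ball (0 : E5) 1)).toReal * B := by
        refine mul_le_mul_of_nonneg_right ?_ hB
        exact ENNReal.toReal_mono measure_ball_lt_top.ne (measure_mono hΩ)
    _ = _ := mul_comm _ _

/-- The volume of the unit ball is positive; a convenient constant. -/
def volB : ℝ := (volume (Metric.ball (0 : E5) 1)).toReal

theorem volB_nonneg : 0 ≤ volB := ENNReal.toReal_nonneg

/-- `NN` is bounded by sup norms. -/
theorem NN_le_of_sup {h : ℕ → ℝ} (h1 : ∀ i, h i ≤ 1) (m : ℕ) {Ω : Set E5}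
    (ho : MeasurableSet Ω) (hΩ : Ω ⊆ Metric.ball 0 1) {f : E5 → ℂ} (hf : Sm f) {B : ℝ}
    (hB : 0 ≤ B) (hb : ∀ i ≤ m, ∀ x ∈ Ω, sq i f x ≤ B ^ 2) :
    NN h m Ω f ≤ (m + 1) * Real.sqrt volB * B := by
  have : ∀ i ∈ Finset.range (m + 1),
      h i * Real.sqrt (∫ x in Ω, sq i f x) ≤ Real.sqrt volB * B := by
    intro i hi
    have hi' : i ≤ m := by have := Finset.mem_range.1 hi; omega
    have a := setInt_le_of_bdd (sq_continuous i hf) ho hΩ (sq_nonneg B) (hb i hi')
    have b : Real.sqrt (∫ x in Ω, sq i f x) ≤ Real.sqrt volB * B := by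
      refine (Real.sqrt_le_sqrt a).trans (le_of_eq ?_)
      rw [Real.sqrt_mul (sq_nonneg B), Real.sqrt_sq hB, mul_comm]; rfl
    calc _ ≤ 1 * Real.sqrt (∫ x in Ω, sq i f x) :=
          mul_le_mul_of_nonneg_right (h1 i) (Real.sqrt_nonneg _)
      _ ≤ _ := by rw [one_mul]; exact b
  refine (Finset.sum_le_sum this).trans (le_of_eq ?_)
  rw [Finset.sum_const, Finset.card_range]
  simp only [nsmul_eq_mul]
  push_cast
  ring

end Pool.Agent.CR5
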