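import Pool.Agent.Lib.CR5.SpecF

/-!
# CR5, F/Pr: products
-/

open MeasureTheory Set Filter Topology
open scoped ENNReal ComplexConjugate

noncomputable section

namespace Pool.Agent.CR5

theorem pPr (h1 : S_Aof) (h2 : S_Aon) (h3 : S_Aop) : S_Pr := by
  intro m
  obtain ⟨C1, p1, hC1, hA⟩ := h1
  obtain ⟨C0, hC0, hB⟩ := h3 m
  have hm : (1 : ℝ) ≤ (m : ℝ) + 1 := by
    have : (0 : ℝ) ≤ (m : ℝ) := Nat.cast_nonneg m
    linarith
  have hCC : (1 : ℝ) ≤ C0 * ((m : ℝ) + 1) := one_le_mul_of_one_le_of_one_le hC0 hm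
  have hC : (1 : ℝ) ≤ C1 * (C0 * ((m : ℝ) + 1)) := one_le_mul_of_one_le_of_one_le hC1 hCC
  refine ⟨C1 * (C0 * ((m : ℝ) + 1)), 2 * p1 + 1, hC, ?_⟩
  intro h hh s hs hs1 Ω' Ω ho' ho hsub hinn hball f g hf hg
  obtain ⟨N1, hN1⟩ : ∃ N1, N1 = NN h m Ω f := ⟨_, rfl⟩
  obtain ⟨N2, hN2⟩ : ∃ N2, N2 = NN h m Ω g := ⟨_, rfl⟩
  have n1 : 0 ≤ N1 := by
    rw [hN1]
    exact NN_nonneg hh.pos m Ω f
  have n2 : 0 ≤ N2 := by
    rw [hN2]
    exact NN_nonneg hh.pos m Ω g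
  have a1 := hA m h hh s hs hs1 Ω' Ω hsub hinn hball f hf
  have a2 := hA m h hh s hs hs1 Ω' Ω hsub hinn hball g hg
  rw [← hN1] at a1
  rw [← hN2] at a2
  rw [← hN1, ← hN2]
  have hCs : (1 : ℝ) ≤ C1 / s := by
    rw [le_div_iff₀ hs]
    linarith
  have hCs0 : (0 : ℝ) ≤ C1 / s := by linarith
  obtain ⟨K, hK⟩ : ∃ K, K = (C1 / s) ^ p1 := ⟨_, rfl⟩
  have hK0 : 0 ≤ K := by
    rw [hK]
    positivity
  rw [← hK] at a1 a2
  have a3 := hB h hh Ω' ho' (hsub.trans hball) 0 0 (K * N1) (K * N2) f g hf hg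
    (by positivity) (by positivity) a1 a2
  have a4 := h2 h m Ω' (C0 * (K * N1) * (K * N2)) (fun x => f x * g x) hh.pos
    (by positivity) a3
  refine a4.trans ?_
  have hKK : K * K * (C0 * ((m : ℝ) + 1)) ≤ (C1 * (C0 * ((m : ℝ) + 1)) / s) ^ (2 * p1 + 1) := by
    rw [pow_succ]
    have b1 : K * K = (C1 / s) ^ (2 * p1) := by
      rw [hK]
      ring
    have b2 : (C1 / s) ^ (2 * p1) ≤ (C1 * (C0 * ((m : ℝ) + 1)) / s) ^ (2 * p1) := by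
      refine pow_le_pow_left₀ hCs0 ?_ _
      refine div_le_div_of_nonneg_right ?_ hs.le
      exact le_mul_of_one_le_right (by linarith) hCC
    have b3 : C0 * ((m : ℝ) + 1) ≤ C1 * (C0 * ((m : ℝ) + 1)) / s := by
      rw [le_div_iff₀ hs]
      have : 0 ≤ C0 * ((m : ℝ) + 1) := by linarith
      nlinarith
    rw [b1]
    exact mul_le_mul b2 b3 (by linarith) (by positivity)
  calc ((m : ℝ) + 1) * (C0 * (K * N1) * (K * N2))
      = K * K * (C0 * ((m : ℝ) + 1)) * (N1 * N2) := by ring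
    _ ≤ (C1 * (C0 * ((m : ℝ) + 1)) / s) ^ (2 * p1 + 1) * (N1 * N2) :=
        mul_le_mul_of_nonneg_right hKK (mul_nonneg n1 n2)
    _ = (C1 * (C0 * ((m : ℝ) + 1)) / s) ^ (2 * p1 + 1) * N1 * N2 := by ring

end Pool.Agent.CR5
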